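import Pool.Agent.Work.MP_c629c8_al.Unif.Ram
import Pool.Agent.Work.MP_c629c8_al.Grp.Defs

/-!
# Uniformisation of Ramsey systems implies linear uniformisation
-/

namespace Pool.Agent.Unif

open Pool.Agent.Work.MP_c629c8_al

/-- Uniformisation of `R`-Ramsey systems along the branches `c i`. -/
def RU (R : List ℕ → ℕ → ℕ → ℕ) {I : Type} (c : I → ℕ → ℕ) : Prop :=
  ∀ 𝒦 : List ℕ → Set (Finset I), IsRamsey R 𝒦 → ∃ n : I → ℕ, ∀ r (E : Finset I),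
    (∀ i ∈ E, Pre r (c i) ∧ n i ≤ r.length) → E ∈ 𝒦 r

theorem LU_of_RU {I : Type} (p : List ℕ → ℕ) (hp : ∀ r, (p r).Prime) (c : I → ℕ → ℕ)
    (h : RU (rbd p) c) : LU p c := by
  intro R L hR hL
  obtain ⟨n, hn⟩ := h _ (isRamsey_sub p hp R L hL)
  refine ⟨n, fun s v hv => ?_⟩
  refine hn s (v : I →₀ ZMod (p s)).support (fun i hi => ?_) v fun i hi => Finsupp.mem_support_iff.2 hi
  have hi' := Finsupp.mem_support_iff.1 hi
  exact ⟨hR s v v.2 i hi', hv i hi'⟩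

/-- The form with closed affine systems. -/
theorem exists_unif_of_RU {I : Type} (p : List ℕ → ℕ) (hp : ∀ r, (p r).Prime) (c : I → ℕ → ℕ)
    (h : RU (rbd p) c) (A : ∀ r, Set (I → ZMod (p r))) (hne : ∀ r, (A r).Nonempty)
    (hA : ∀ r, IsAff (A r)) (hcl : ∀ r, IsPtClosed (A r))
    (hz : ∀ r i, Pre r (c i) → ∃ g ∈ A r, g i = 0) :
    ∃ n : I → ℕ, ∀ r, ∃ g ∈ A r, ∀ i, Pre r (c i) → n i ≤ r.length → g i = 0 := by
  obtain ⟨n, hn⟩ := h _ (isRamsey_affine p hp (fun r i => Pre r (c i)) A hne hA hz)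
  refine ⟨n, fun r => ?_⟩
  have := NeZero.mk (hp r).ne_zero
  obtain ⟨g, hg, h0⟩ := exists_zero_of_finite (hcl r) {i | Pre r (c i) ∧ n i ≤ r.length}
    (fun E hE => by
      obtain ⟨g, hg, h0⟩ := hn r E hE
      exact ⟨g, hg, fun i hi => h0 i hi (hE i hi).1⟩)
  exact ⟨g, hg, fun i h1 h2 => h0 i ⟨h1, h2⟩⟩

end Pool.Agent.Unif
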