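import Pool.Agent.Work.MP_c629c8_al.Unif.Cond

/-!
# Density lemmas for the iteration

* `st_lengthen`: the stems of a condition can be lengthened;
* `exists_grow`, `exists_split`: long stems, incomparable stems;
* `exists_dom`: if the problem of the coordinate `y` is good then every index can be put into the
  domain of the coordinate `y`.
-/

open Cardinal Set

namespace Pool.Agent.Unif

variable {K I : Type}

/-- two sequences have incomparable extensions -/
theorem exists_incomp (s t : List ℕ) :
    ∃ s' t', s <+: s' ∧ t <+: t' ∧ ¬ s' <+: t' ∧ ¬ t' <+: s' := by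
  have key : ∀ s t : List ℕ, s <+: t → ∃ s' t', s <+: s' ∧ t <+: t' ∧ ¬ s' <+: t' ∧ ¬ t' <+: s' := by
    rintro s t ⟨u, rfl⟩
    obtain ⟨c, v, hc⟩ : ∃ c v, u ++ [0] = c :: v := by
      cases h : u ++ [0] with
      | nil => simp at h
      | cons c v => exact ⟨c, v, rfl⟩
    refine ⟨s ++ [c + 1], s ++ u ++ [0], List.prefix_append _ _, List.prefix_append _ _, ?_, ?_⟩
    · rw [List.append_assoc, List.prefix_append_right_inj, hc, List.cons_prefix_cons]
      rintro ⟨h, -⟩
      omega
    · rw [List.append_assoc, List.prefix_append_right_inj, hc, List.cons_prefix_cons]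
      rintro ⟨h, -⟩
      omega
  by_cases h1 : s <+: t
  · exact key s t h1
  · by_cases h2 : t <+: s
    · obtain ⟨t', s', ht, hs, h3, h4⟩ := key t s h2
      exact ⟨s', t', hs, ht, h4, h3⟩
    · exact ⟨s, t, List.prefix_rfl, List.prefix_rfl, h1, h2⟩

section

variable [LinearOrder K] [WellFoundedLT K] {R : List ℕ → ℕ → ℕ → ℕ} {a : K → Code K I}

/-- Longer stems. -/
theorem st_lengthen {p : Cond K I} (hp : p ∈ St R a univ) (q : Cond K I)
    (hs : ∀ i, p.s i <+: q.s i) (hn : q.n = p.n) : q ∈ St R a univ := by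
  have hle : q ≤ p := ⟨hs, fun x i m h => by rw [hn]; exact h⟩
  exact mem_of_local (fun _ _ _ => mem_univ _) fun z i _ =>
    ⟨p, hp, fun j => by rw [hn], Cond.res_mono hle _⟩

/-- A new stem for one index. -/
theorem exists_update {p : Cond K I} (hp : p ∈ St R a univ) (i : I) (t : List ℕ)
    (ht : p.s i <+: t) :
    ∃ q ∈ St R a univ, q ≤ p ∧ q.n = p.n ∧ q.s i = t ∧ ∀ j, j ≠ i → q.s j = p.s j := by
  classical
  have hfs : {j | Function.update p.s i t j ≠ []}.Finite := by
    refine (p.fs.insert i).subset fun j hj => ?_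
    by_cases h : j = i
    · exact Or.inl h
    · right
      simpa [Function.update_of_ne h] using hj
  have hs : ∀ j, p.s j <+: Function.update p.s i t j := by
    intro j
    by_cases h : j = i
    · subst h
      rw [Function.update_self]
      exact ht
    · rw [Function.update_of_ne h]
  refine ⟨⟨Function.update p.s i t, p.n, hfs, p.fn⟩, st_lengthen hp _ hs rfl,
    ⟨hs, fun x j m h => h⟩, rfl, ?_, fun j hj => ?_⟩
  · change Function.update p.s i t i = t
    rw [Function.update_self]
  · change Function.update p.s i t j = p.s j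
    rw [Function.update_of_ne hj]

theorem exists_grow {p : Cond K I} (hp : p ∈ St R a univ) (i : I) (n : ℕ) :
    ∃ q ∈ St R a univ, q ≤ p ∧ n ≤ (q.s i).length := by
  obtain ⟨q, hq, h1, -, h2, -⟩ := exists_update hp i (p.s i ++ List.replicate n 0)
    (List.prefix_append _ _)
  exact ⟨q, hq, h1, by rw [h2]; simp⟩

theorem exists_split {p : Cond K I} (hp : p ∈ St R a univ) {i j : I} (hij : i ≠ j) :
    ∃ q ∈ St R a univ, q ≤ p ∧ ¬ (q.s i <+: q.s j) ∧ ¬ (q.s j <+: q.s i) := by
  obtain ⟨s', t', h1, h2, h3, h4⟩ := exists_incomp (p.s i) (p.s j)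
  obtain ⟨q, hq, l1, -, e1, f1⟩ := exists_update hp i s' h1
  obtain ⟨q', hq', l2, -, e2, f2⟩ := exists_update hq j t' (by rw [f1 j hij.symm]; exact h2)
  refine ⟨q', hq', l2.trans l1, ?_, ?_⟩
  · rw [e2, f2 i hij, e1]
    exact h3
  · rw [e2, f2 i hij, e1]
    exact h4

/-- Every index can be put into the domain of a coordinate whose problem is good. -/
theorem exists_dom {y : K} (hy : GoodIn R (stage R a y) (dn (stage R a y) (a y))) {p : Cond K I}
    (hp : p ∈ St R a univ) (i : I) : ∃ q ∈ St R a univ, q ≤ p ∧ q.n y i ≠ none := by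
  classical
  by_cases hi : p.n y i ≠ none
  · exact ⟨p, hp, le_refl p, hi⟩
  push Not at hi
  -- the length of the stem of `i`
  obtain ⟨L, hL⟩ : ∃ L, L = (p.s i).length := ⟨_, rfl⟩
  -- the lengthened stems of the indices in the domain
  obtain ⟨t, ht⟩ : ∃ t : I → List ℕ, t = fun j => if p.n y j ≠ none then
      p.s j ++ List.replicate (L + 1) 0 else p.s j := ⟨_, rfl⟩
  have ht1 : ∀ j, p.s j <+: t j := by
    intro j
    rw [ht]
    dsimp only
    split_ifs
    · exact List.prefix_append _ _
    · exact List.prefix_rfl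
  have ht2 : ∀ j, p.n y j ≠ none → L + 1 ≤ (t j).length := by
    intro j hj
    rw [ht]
    dsimp only
    rw [if_pos hj]
    simp
  have hti : t i = p.s i := by
    rw [ht]
    dsimp only
    rw [if_neg (by simp [hi])]
  -- a large value
  obtain ⟨c, hc⟩ : ∃ c : ℕ, ∀ j, p.n y j ≠ none → (t j).getD L 0 < c := by
    refine ⟨((p.fin_n y).toFinset.sup fun j => (t j).getD L 0) + 1, fun j hj => ?_⟩
    have h := Finset.le_sup (f := fun j => (t j).getD L 0)
      ((p.fin_n y).mem_toFinset.2 (show j ∈ {i | p.n y i ≠ none} from hj))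
    exact Nat.lt_succ_of_le h
  -- the condition with the new stems
  have hts : ∀ j, p.s j <+: Function.update t i (p.s i ++ [c]) j := by
    intro j
    by_cases h : j = i
    · subst h
      rw [Function.update_self]
      exact List.prefix_append _ _
    · rw [Function.update_of_ne h]
      exact ht1 j
  have hfs : {j | Function.update t i (p.s i ++ [c]) j ≠ []}.Finite := by
    refine ((p.fs.union (p.fin_n y)).insert i).subset fun j hj => ?_
    by_cases h : j = i
    · exact Or.inl h
    · right
      by_contra hcon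
      simp only [mem_union, mem_ofPred_eq, not_or, not_not] at hcon
      apply hj
      rw [Function.update_of_ne h, ht]
      dsimp only
      rw [if_neg (by simp [hcon.2]), hcon.1]
  obtain ⟨q1, hq1⟩ : ∃ q1 : Cond K I, q1 = ⟨Function.update t i (p.s i ++ [c]), p.n, hfs, p.fn⟩ :=
    ⟨_, rfl⟩
  have hq1s : q1.s = Function.update t i (p.s i ++ [c]) := by rw [hq1]
  have hq1n : q1.n = p.n := by rw [hq1]
  have hq1m : q1 ∈ St R a univ := st_lengthen hp q1 (by rw [hq1s]; exact hts) hq1n
  have hsi : q1.s i = p.s i ++ [c] := by rw [hq1s, Function.update_self]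
  have hsj : ∀ j, j ≠ i → q1.s j = t j := fun j hj => by rw [hq1s, Function.update_of_ne hj]
  have hlen : (q1.s i).length = L + 1 := by rw [hsi, hL]; simp
  -- incomparability
  have hval : ∀ j, p.n y j ≠ none → ∀ l : List ℕ, l <+: t j → L < l.length →
      l.getD L 0 ≠ c := by
    rintro j hj l ⟨u, hu⟩ hl he
    have h := hc j hj
    rw [← hu, List.getD_append _ _ _ _ hl, he] at h
    exact lt_irrefl _ h
  have hgi : (q1.s i).getD L 0 = c := by
    rw [hsi, hL, List.getD_append_right _ _ _ _ le_rfl, Nat.sub_self]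
    rfl
  have hno1 : ∀ j, j ≠ i → p.n y j ≠ none → ¬ (q1.s i <+: q1.s j) := by
    intro j hj hjn h
    rw [hsj j hj] at h
    exact hval j hjn _ h (by rw [hlen]; exact Nat.lt_succ_self _) hgi
  have hno2 : ∀ j, j ≠ i → p.n y j ≠ none → ¬ (q1.s j <+: q1.s i) := by
    intro j hj hjn h
    have h1 := h.length_le
    rw [hlen, hsj j hj] at h1
    have h2 : q1.s j = q1.s i := h.eq_of_length_le (by
      rw [hlen, hsj j hj]
      exact ht2 j hjn)
    exact hno1 j hj hjn (by rw [h2])
  -- the condition
  have hfn : {w : K × I | (fun x j => if x = y ∧ j = i then some (L + 2) else p.n x j) w.1 w.2 ≠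
      none}.Finite := by
    refine (p.fn.insert (y, i)).subset fun w hw => ?_
    by_cases h : w.1 = y ∧ w.2 = i
    · left
      exact Prod.ext h.1 h.2
    · right
      simpa [h] using hw
  obtain ⟨q, hq⟩ : ∃ q : Cond K I, q = ⟨q1.s, fun x j => if x = y ∧ j = i then some (L + 2)
      else p.n x j, q1.fs, hfn⟩ := ⟨_, rfl⟩
  have hqs : q.s = q1.s := by rw [hq]
  have hqi : q.n y i = some (L + 2) := by rw [hq]; simp
  have hqx : ∀ x j, ¬ (x = y ∧ j = i) → q.n x j = p.n x j := by
    intro x j h
    rw [hq]
    exact if_neg h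
  have hle1 : q ≤ q1 := by
    refine ⟨fun j => by rw [hqs], fun x j m h => ?_⟩
    rw [hq1n] at h
    by_cases hxj : x = y ∧ j = i
    · rw [hxj.1, hxj.2, hi] at h
      exact absurd h (by simp)
    · rw [hqx x j hxj]
      exact h
  have hle : q ≤ p := by
    refine hle1.trans ⟨fun j => by rw [hq1s]; exact hts j, fun x j m h => ?_⟩
    rw [hq1n]
    exact h
  refine ⟨q, ?_, hle, by rw [hqi]; simp⟩
  refine mem_of_loc (fun _ _ _ => mem_univ _) fun z j hz hres => ?_
  have hresle : q.res (Iio z) ≤ q1.res (Iio z) := Cond.res_mono hle1 _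
  by_cases hzy : z = y
  · subst hzy
    refine ⟨hy, ?_, fun r => ?_⟩
    · intro j1 j2 h12 h1 h2
      rw [hqs]
      by_cases e1 : j1 = i
      · subst e1
        rw [hqx z j2 (fun h => h12 h.2.symm)] at h2
        exact hno1 j2 h12.symm h2
      · rw [hqx z j1 (fun h => e1 h.2)] at h1
        by_cases e2 : j2 = i
        · subst e2
          exact hno2 j1 h12 h1
        · rw [hqx z j2 (fun h => e2 h.2)] at h2
          exact (hq1m z j1 (by rw [hq1n]; exact h1)).2.2.1 j1 j2 h12 (by rw [hq1n]; exact h1)
            (by rw [hq1n]; exact h2)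
    · have her : er q z r = er q1 z r := by
        ext j'
        rw [mem_er, mem_er, hqs, hq1n]
        by_cases e : j' = i
        · subst e
          constructor
          · rintro ⟨h1, m, hm, h2⟩
            rw [hqi] at h2
            have h3 := h1.length_le
            rw [hlen] at h3
            have h4 := Option.some.inj h2
            omega
          · rintro ⟨h1, m, hm, h2⟩
            rw [hi] at h2
            exact absurd h2 (by simp)
        · rw [hqx z j' (fun h => e h.2)]
      rw [her]
      by_cases hne : (er q1 z r).card ≤ 1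
      · exact hy.small r _ hne hres
      · obtain ⟨j', hj'⟩ : ∃ j', j' ∈ er q1 z r := by
          by_contra h
          push Not at h
          exact hne (by rw [Finset.eq_empty_of_forall_notMem h]; simp)
        obtain ⟨-, m, -, h2⟩ := mem_er.1 hj'
        exact nameOf_anti ((hq1m z j' (by rw [h2]; simp)).2.2.2 r) hres hresle
  · have hn : ∀ j', q1.n z j' = q.n z j' := fun j' => by
      rw [hq1n, hqx z j' (fun h => hzy h.1)]
    exact Loc.of_le (p' := q1) (hq1m z j (by rw [hn]; exact hz)).2 hres hresle hn

end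

end Pool.Agent.Unif
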