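import Pool.Agent.Work.MP_c629c8_al.Unif.LemW0

/-!
# Lemma W: the successor case
-/

open Cardinal Set

namespace Pool.Agent.Unif

variable {K I : Type}

/-- The Ramsey property for finitely many nodes. -/
theorem iter_ramsey {R : List ℕ → ℕ → ℕ → ℕ} {S : Set (Cond K I)} {c : Code K I}
    (hg : GoodIn R S (dn S c)) (k₁ : ℕ) (L : List (List ℕ)) :
    ∀ N, ∃ N', ∀ q ∈ S, ∀ e : Fin N' → List ℕ → Finset I,
      (∀ n, ∀ r ∈ L, (e n r).card ≤ k₁ ∧ q ∈ dn S c r (e n r)) →
      ∃ q' ∈ S, q' ≤ q ∧ ∃ J : Finset (Fin N'), N ≤ J.card ∧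
        ∀ r ∈ L, ∃ E', (∀ n ∈ J, e n r ⊆ E') ∧ q' ∈ dn S c r E' := by
  classical
  induction L with
  | nil => exact fun N => ⟨N, fun q hq e _ => ⟨q, hq, le_rfl, Finset.univ, by simp, by simp⟩⟩
  | cons r L ih =>
    intro N
    obtain ⟨N1, h1⟩ := ih N
    refine ⟨R r k₁ N1, fun q hq e he => ?_⟩
    obtain ⟨q1, hq1, hle1, J1, hJ1, E1, hE1, hqE1⟩ := hg.ramsey r k₁ N1 q hq (fun n => e n r)
      fun j => he j r List.mem_cons_self
    obtain ⟨J1', hJ1', hcard⟩ := Finset.exists_subset_card_eq hJ1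
    let g : Fin N1 → Fin (R r k₁ N1) := fun n => ((J1'.equivFinOfCardEq hcard).symm n).1
    have hg1 : Function.Injective g := fun n n' h =>
      (J1'.equivFinOfCardEq hcard).symm.injective (Subtype.ext h)
    have hg2 : ∀ n, g n ∈ J1 := fun n => hJ1' ((J1'.equivFinOfCardEq hcard).symm n).2
    obtain ⟨q2, hq2, hle2, J2, hJ2, h2⟩ := h1 q1 hq1 (fun n => e (g n)) fun n r' hr' =>
      ⟨(he (g n) r' (List.mem_cons_of_mem _ hr')).1,
        nameOf_anti (he (g n) r' (List.mem_cons_of_mem _ hr')).2 hq1 hle1⟩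
    refine ⟨q2, hq2, hle2.trans hle1, J2.image g, ?_, fun r' hr' => ?_⟩
    · rwa [Finset.card_image_of_injective _ hg1]
    · rcases List.mem_cons.1 hr' with h3 | h3
      · subst h3
        refine ⟨E1, fun n hn => ?_, nameOf_anti hqE1 hq2 hle2⟩
        obtain ⟨m, -, rfl⟩ := Finset.mem_image.1 hn
        exact hE1 _ (hg2 m)
      · obtain ⟨E', h4, h5⟩ := h2 r' h3
        refine ⟨E', fun n hn => ?_, h5⟩
        obtain ⟨m, hm, rfl⟩ := Finset.mem_image.1 hn
        exact h4 m hm

theorem append_inj {t z : List ℕ} {x y : ℕ} (h1 : t ++ [x] <+: z) (h2 : t ++ [y] <+: z) :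
    x = y := by
  have h3 : t ++ [x] = t ++ [y] := by
    rcases prefix_or h1 h2 with h | h
    · exact h.eq_of_length (by simp)
    · exact (h.eq_of_length (by simp)).symm
  simpa using h3

theorem prefix_append_single {t z r : List ℕ} {x : ℕ} (h1 : t ++ [x] <+: z) (h2 : r <+: z)
    (h3 : ¬ r <+: t) : t ++ [x] <+: r := by
  rcases prefix_or h1 h2 with h | h
  · exact h
  · rcases List.prefix_concat_iff.1 h with h4 | h4
    · rw [h4]
    · exact absurd h4 h3

variable [LinearOrder K] [WellFoundedLT K]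
variable {R : List ℕ → ℕ → ℕ → ℕ} {a : K → Code K I}

open Classical in
/-- Replace the coordinate `y`. -/
noncomputable def Cond.put (q : Cond K I) (y : K) (m : I → Option ℕ) (hm : {i | m i ≠ none}.Finite) :
    Cond K I where
  s := q.s
  n := fun x i => if x = y then m i else q.n x i
  fs := q.fs
  fn := by
    refine ((hm.image fun i => (y, i)).union q.fn).subset fun w hw => ?_
    by_cases h : w.1 = y
    · left
      refine ⟨w.2, ?_, Prod.ext h.symm rfl⟩
      simpa [h] using hw
    · right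
      simpa [h] using hw

omit [WellFoundedLT K] in
theorem Cond.put_y (q : Cond K I) (y : K) (m : I → Option ℕ) (hm) :
    (q.put y m hm).n y = m := by
  funext i
  simp [Cond.put]

omit [WellFoundedLT K] in
theorem Cond.put_ne (q : Cond K I) {x y : K} (m : I → Option ℕ) (hm) (h : x ≠ y) :
    (q.put y m hm).n x = q.n x := by
  funext i
  simp [Cond.put, h]

omit [WellFoundedLT K] in
@[simp] theorem Cond.put_s (q : Cond K I) (y : K) (m : I → Option ℕ) (hm) :
    (q.put y m hm).s = q.s := rfl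

omit [WellFoundedLT K] in
theorem Cond.put_res (q : Cond K I) (y : K) (m : I → Option ℕ) (hm)
    (hq : ∀ x i, q.n x i ≠ none → x < y) : (q.put y m hm).res (Iio y) = q := by
  ext1
  · rfl
  · funext x i
    by_cases hx : x < y
    · rw [Cond.res_n _ (show x ∈ Iio y from hx), Cond.put_ne _ _ _ hx.ne]
    · rw [Cond.res_n_not _ (show x ∉ Iio y from hx)]
      by_contra h'
      exact hx (hq x i fun h'' => h' h''.symm)

omit [WellFoundedLT K] in
theorem er_put (q : Cond K I) (y : K) (m : I → Option ℕ) (hm) {r : List ℕ} {i : I} :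
    i ∈ er (q.put y m hm) y r ↔ r <+: q.s i ∧ ∃ b ≤ r.length, m i = some b := by
  rw [mem_er, Cond.put_y]
  rfl

/-- The successor case. -/
theorem lw_succ (y : K) (h : LW R a (Iio y)) : LW R a (Iic y) := by
  classical
  intro J B hB p hp k E hE
  obtain ⟨B', hB', hc, ρ, k', u, ψ, μ, ν, h1, h2, h3, h4, h5, h6, h7⟩ :=
    exists_normal B hB (fun j => ((p j).fin_n y).toFinset) (fun j i => ((p j).n y i, (p j).s i)) E hE
  have hres : ∀ j ∈ B', (p j).res (Iio y) ∈ St R a (Iio y) := fun j hj =>
    St_mono inter_subset_right (res_mem (hp j (hB' hj)) (isLowerSet_Iio y))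
  obtain ⟨T, hT⟩ := h J B' hc (fun j => (p j).res (Iio y)) hres k' u h1
  refine ⟨fun l => T (ψ l), fun N => ?_⟩
  by_cases hgood : GoodIn R (stage R a y) (dn (stage R a y) (a y))
  swap
  · -- the coordinate is not used
    obtain ⟨f, hf, hfB, q, hq, hqp, v, hv, hvs⟩ := hT N
    have hno : ∀ n, (p (f n)).res (Iio y) = p (f n) := by
      intro n
      refine Cond.res_eq_self fun x i hx => ?_
      have h8 := hp _ (hB' (hfB n)) x i hx
      refine lt_of_le_of_ne h8.1 fun hxy => ?_
      subst hxy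
      exact hgood h8.2.1
    refine ⟨f, hf, fun n => hB' (hfB n), q, St_mono (fun x hx => le_of_lt hx) hq,
      fun n => (hqp n).trans_eq (hno n), fun n l => v n (ψ l), fun n n' l h => hv n n' _ h,
      fun n l => ?_⟩
    rw [← h3 _ (hfB n)]
    exact hvs n (ψ l)
  -- the stems are initial segments of the nodes
  have hτ : ∀ l, (μ l).2 <+: T l := by
    intro l
    obtain ⟨f, hf, hfB, q, hq, hqp, v, hv, hvs⟩ := hT 2
    have h8 : ∀ n, (μ l).2 <+: q.s (u (f n) l) := by
      intro n
      have h9 := (hqp n).1 (u (f n) l)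
      rw [Cond.res_s] at h9
      have h10 := h4 (f n) (hfB n) l
      rw [← (Prod.ext_iff.1 h10).2]
      exact h9
    by_contra h11
    have h12 : ∀ n, T l ++ [v n l] <+: (μ l).2 := fun n =>
      prefix_append_single (hvs n l) (h8 n) h11
    have h13 := append_inj (h12 0) (h12 1)
    have h14 := hv 0 1 l h13
    simp at h14
  let L : List (List ℕ) := (List.finRange k').flatMap fun l => (T l).inits
  have hL : ∀ r, r ∈ L ↔ ∃ l, r <+: T l := by
    intro r
    simp [L]
  obtain ⟨N', hN'⟩ := iter_ramsey hgood (ρ.card + k') L (N + 1)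
  obtain ⟨f, hf, hfB, q, hq, hqp, v, hv, hvs⟩ := hT N'
  have hqy : ∀ x i, q.n x i ≠ none → x < y := fun x i hx => (hq x i hx).1
  -- positions
  have hpos : ∀ n i, (p (f n)).n y i ≠ none → i ∈ ρ ∨ ∃ l, u (f n) l = i := fun n i hi =>
    h7 _ (hfB n) i (by simpa using hi)
  have hμ : ∀ n l, (p (f n)).n y (u (f n) l) = (μ l).1 ∧ (p (f n)).s (u (f n) l) = (μ l).2 :=
    fun n l => ⟨(Prod.ext_iff.1 (h4 _ (hfB n) l)).1, (Prod.ext_iff.1 (h4 _ (hfB n) l)).2⟩
  have hν : ∀ n, ∀ i ∈ ρ, (p (f n)).n y i = (ν i).1 ∧ (p (f n)).s i = (ν i).2 :=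
    fun n i hi => ⟨(Prod.ext_iff.1 (h5 _ (hfB n) i hi)).1, (Prod.ext_iff.1 (h5 _ (hfB n) i hi)).2⟩
  have hsq : ∀ n i, (p (f n)).s i <+: q.s i := fun n i => (hqp n).1 i
  have hloc : ∀ n i, (p (f n)).n y i ≠ none → Loc R (stage R a y) (a y) y (p (f n)) :=
    fun n i hi => (hp _ (hB' (hfB n)) y i hi).2
  have key : ∀ n n' i i' z, (p (f n)).n y i ≠ none → (p (f n')).n y i' ≠ none →
      (p (f n)).s i <+: z → (p (f n')).s i' <+: z →
      i = i' ∨ ∃ l, u (f n) l = i ∧ u (f n') l = i' := by
    intro n n' i i' z hi hi' hz hz'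
    have hinc := (hloc n i hi).2.1
    have h8 : ∀ i'', (p (f n)).n y i'' ≠ none → (p (f n)).s i'' <+: z → i = i'' := by
      intro i'' h9 h10
      by_contra hne
      rcases prefix_or hz h10 with h11 | h11
      · exact hinc i i'' hne hi h9 h11
      · exact hinc i'' i (Ne.symm hne) h9 hi h11
    rcases hpos n' i' hi' with h9 | ⟨l, h9⟩
    · left
      refine h8 i' ?_ ?_
      · rw [(hν n i' h9).1, ← (hν n' i' h9).1]
        exact hi'
      · rw [(hν n i' h9).2, ← (hν n' i' h9).2]
        exact hz'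
    · right
      refine ⟨l, (h8 _ ?_ ?_).symm, h9⟩
      · rw [(hμ n l).1, ← (hμ n' l).1, h9]
        exact hi'
      · rw [(hμ n l).2, ← (hμ n' l).2, h9]
        exact hz'
  -- the sets at the single conditions
  let P : Fin N' → Cond K I := fun n => q.put y ((p (f n)).n y) ((p (f n)).fin_n y)
  let e : Fin N' → List ℕ → Finset I := fun n r => er (P n) y r
  have he : ∀ n r i, i ∈ e n r ↔ r <+: q.s i ∧ ∃ b ≤ r.length, (p (f n)).n y i = some b :=
    fun n r i => er_put _ _ _ _
  have hecard : ∀ n r, (e n r).card ≤ ρ.card + k' := by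
    intro n r
    have h8 : e n r ⊆ ρ ∪ Finset.univ.image (u (f n)) := by
      intro i hi
      obtain ⟨-, b, -, hb⟩ := (he n r i).1 hi
      rcases hpos n i (by rw [hb]; simp) with h9 | ⟨l, h9⟩
      · exact Finset.mem_union_left _ h9
      · exact Finset.mem_union_right _ (Finset.mem_image.2 ⟨l, Finset.mem_univ _, h9⟩)
    refine (Finset.card_le_card h8).trans ((Finset.card_union_le _ _).trans ?_)
    have h9 : (Finset.univ.image (u (f n))).card ≤ k' := by
      refine Finset.card_image_le.trans ?_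
      simp
    omega
  have hqs : q ∈ stage R a y := by
    rw [stage_eq]
    exact hq
  have hemem : ∀ n r, q ∈ dn (stage R a y) (a y) r (e n r) := by
    intro n r
    by_cases hi : ∃ i, (p (f n)).n y i ≠ none
    · obtain ⟨i, hi⟩ := hi
      have h8 := hloc n i hi
      have h9 : ∀ j, (p (f n)).n y j = (P n).n y j := by
        intro j
        simp only [P]
        rw [Cond.put_y]
      rcases er_stem (q := P n) h8.2.1 (fun j => hsq n j) h9 r with h10 | h10
      · exact hgood.mono r h10 (nameOf_anti (h8.2.2 r) hqs (hqp n))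
      · exact hgood.small r _ h10 hqs
    · refine hgood.small r _ ?_ hqs
      have h8 : e n r = ∅ := by
        rw [Finset.eq_empty_iff_forall_notMem]
        intro i h9
        obtain ⟨-, b, -, hb⟩ := (he n r i).1 h9
        exact hi ⟨i, by rw [hb]; simp⟩
      simp [h8]
  obtain ⟨q', hq', hle, Js, hJs, hLs⟩ := hN' q hqs e fun n r _ => ⟨hecard n r, hemem n r⟩
  have hq'y : ∀ x i, q'.n x i ≠ none → x < y := by
    intro x i hx
    exact (mem_stage R a).1 hq' x i hx |>.1
  -- the union at the coordinate `y`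
  have hval : ∀ n n' i, (p (f n)).n y i ≠ none → (p (f n')).n y i ≠ none →
      (p (f n)).n y i = (p (f n')).n y i := by
    intro n n' i hi hi'
    rcases hpos n i hi with h9 | ⟨l, h9⟩
    · rw [(hν n i h9).1, (hν n' i h9).1]
    · rcases hpos n' i hi' with h10 | ⟨l', h10⟩
      · rw [(hν n i h10).1, (hν n' i h10).1]
      · have h11 := (h1 _ (hfB n) _ (hfB n') l l' (h9.trans h10.symm)).1
        rw [h11]
  let m : I → Option ℕ := fun i =>
    if h : ∃ n ∈ Js, (p (f n)).n y i ≠ none then (p (f h.choose)).n y i else none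
  have hm1 : ∀ n ∈ Js, ∀ i, (p (f n)).n y i ≠ none → m i = (p (f n)).n y i := by
    intro n hn i hi
    have h8 : ∃ n ∈ Js, (p (f n)).n y i ≠ none := ⟨n, hn, hi⟩
    simp only [m]
    rw [dif_pos h8]
    exact hval _ _ i h8.choose_spec.2 hi
  have hm2 : ∀ i, m i ≠ none → ∃ n ∈ Js, (p (f n)).n y i ≠ none ∧ m i = (p (f n)).n y i := by
    intro i hi
    by_cases h8 : ∃ n ∈ Js, (p (f n)).n y i ≠ none
    · obtain ⟨n, hn, h9⟩ := h8
      exact ⟨n, hn, h9, hm1 n hn i h9⟩
    · exfalso
      apply hi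
      simp only [m]
      rw [dif_neg h8]
  have hmf : {i | m i ≠ none}.Finite := by
    refine (finite_iUnion fun n : Fin N' => (p (f n)).fin_n y).subset fun i hi => ?_
    obtain ⟨n, -, h8, -⟩ := hm2 i hi
    exact mem_iUnion.2 ⟨n, h8⟩
  let q0 : Cond K I := q.put y m hmf
  let qs : Cond K I := q'.put y m hmf
  have hinc : Inc q0 y := by
    intro i i' hne hi hi' hpre
    have hi2 : m i ≠ none := by
      rwa [show q0.n y = m from Cond.put_y _ _ _ _] at hi
    have hi3 : m i' ≠ none := by
      rwa [show q0.n y = m from Cond.put_y _ _ _ _] at hi'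
    obtain ⟨n, hn, h8, -⟩ := hm2 i hi2
    obtain ⟨n', hn', h9, -⟩ := hm2 i' hi3
    rcases key n n' i i' (q.s i') h8 h9 ((hsq n i).trans hpre) (hsq n' i') with h10 | ⟨l, h10, h11⟩
    · exact hne h10
    · have h12 := hvs n l
      have h13 := hvs n' l
      rw [h10] at h12
      rw [h11] at h13
      have h14 := hv n n' l (append_inj (h12.trans hpre) h13)
      subst h14
      exact hne (h10.symm.trans h11)
  -- the crucial claim
  have hmain : ∀ r, q' ∈ dn (stage R a y) (a y) r (er q0 y r) := by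
    intro r
    by_cases hr : r ∈ L
    · obtain ⟨E', h8, h9⟩ := hLs r hr
      refine hgood.mono r (fun i hi => ?_) h9
      obtain ⟨h10, b, hb, h11⟩ := (er_put q y m hmf).1 hi
      obtain ⟨n, hn, h12, h13⟩ := hm2 i (by rw [h11]; simp)
      exact h8 n hn ((he n r i).2 ⟨h10, b, hb, h13.symm.trans h11⟩)
    · have hr' : ∀ l, ¬ r <+: T l := fun l hl => hr ((hL r).2 ⟨l, hl⟩)
      by_cases hcard : (er q0 y r).card ≤ 1
      · exact hgood.small r _ hcard hq'
      obtain ⟨n0, hn0⟩ : Js.Nonempty := Finset.card_pos.1 (by omega)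
      refine hgood.mono r (fun i hi => ?_) (nameOf_anti (hemem n0 r) hq' hle)
      obtain ⟨h10, b, hb, h11⟩ := (er_put q y m hmf).1 hi
      obtain ⟨n, hn, h12, h13⟩ := hm2 i (by rw [h11]; simp)
      rcases hpos n i h12 with h14 | ⟨l, h14⟩
      · refine (he n0 r i).2 ⟨h10, b, hb, ?_⟩
        rw [(hν n0 i h14).1, ← (hν n i h14).1, ← h13, h11]
      · exfalso
        apply hcard
        have h15 := hvs n l
        rw [h14] at h15
        have h16 : T l ++ [v n l] <+: r := prefix_append_single h15 h10 (hr' l)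
        have h17 : er q0 y r ⊆ {i} := by
          intro i' hi'
          rw [Finset.mem_singleton]
          obtain ⟨h18, b', hb', h19⟩ := (er_put q y m hmf).1 hi'
          obtain ⟨n', hn', h20, h21⟩ := hm2 i' (by rw [h19]; simp)
          have h22 : (p (f n)).s i <+: q.s i' := by
            rw [← h14, (hμ n l).2]
            exact (hτ l).trans (((List.prefix_append _ _).trans h16).trans h18)
          rcases key n n' i i' (q.s i') h12 h20 h22 (hsq n' i') with h23 | ⟨l', h23, h24⟩
          · exact h23.symm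
          · have h25 : l' = l := (h1 _ (hfB n) _ (hfB n) l' l (h23.trans h14.symm)).2
            subst h25
            have h26 := hvs n' l'
            rw [h24] at h26
            have h27 := hv n n' l' (append_inj (h16.trans h18) h26)
            subst h27
            exact h24.symm.trans h23
        exact (Finset.card_le_card h17).trans (by simp)
  have hqs1 : qs.res (Iio y) = q' := Cond.put_res _ _ _ _ hq'y
  have hqsy : qs.n y = m := Cond.put_y _ _ _ _
  have hqsle : qs ≤ q' := by
    refine ⟨fun i => List.prefix_rfl, fun x i b h' => ?_⟩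
    have h8 : x ≠ y := (hq'y x i (by rw [h']; simp)).ne
    rw [show qs.n x = q'.n x from Cond.put_ne _ _ _ h8, h']
  have hmem : qs ∈ St R a (Iic y) := by
    refine mem_of_loc ?_ ?_
    · intro z i hz
      by_cases hzy : z = y
      · exact hzy.le
      · rw [show qs.n z = q'.n z from Cond.put_ne _ _ _ hzy] at hz
        exact (hq'y z i hz).le
    · intro z i hz hzs
      by_cases hzy : z = y
      · subst hzy
        have h8 : ∀ j, q0.n z j = qs.n z j := fun j => by
          rw [hqsy, show q0.n z = m from Cond.put_y _ _ _ _]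
        have h9 : ∀ j, q0.s j <+: qs.s j := fun j => hle.1 j
        refine ⟨hgood, hinc.stem h9 h8, fun r => ?_⟩
        rw [hqs1]
        rcases er_stem (q := qs) hinc h9 h8 r with h10 | h10
        · exact hgood.mono r h10 (hmain r)
        · exact hgood.small r _ h10 hq'
      · have h8 : qs.n z = q'.n z := Cond.put_ne _ _ _ hzy
        rw [h8] at hz
        refine Loc.of_le (p' := q') ((mem_stage R a).1 hq' z i hz).2 hzs
          (Cond.res_mono hqsle _) fun j => by rw [h8]
  have hqsp : ∀ n ∈ Js, qs ≤ p (f n) := by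
    intro n hn
    refine ⟨fun i => (hsq n i).trans (hle.1 i), fun x i b h' => ?_⟩
    by_cases hxy : x = y
    · subst hxy
      rw [hqsy, hm1 n hn i (by rw [h']; simp), h']
    · rw [show qs.n x = q'.n x from Cond.put_ne _ _ _ hxy]
      have h8 : x < y := lt_of_le_of_ne (hp _ (hB' (hfB n)) x i (by rw [h']; simp)).1 hxy
      refine hle.2 x i b ((hqp n).2 x i b ?_)
      rw [Cond.res_n _ (show x ∈ Iio y from h8), h']
  -- choose `N` of them
  obtain ⟨Js', hJs', hcard'⟩ := Finset.exists_subset_card_eq (n := N) (s := Js) (by omega)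
  let g : Fin N → Fin N' := fun n => ((Js'.equivFinOfCardEq hcard').symm n).1
  have hg1 : Function.Injective g := fun n n' h =>
    (Js'.equivFinOfCardEq hcard').symm.injective (Subtype.ext h)
  have hg2 : ∀ n, g n ∈ Js := fun n => hJs' ((Js'.equivFinOfCardEq hcard').symm n).2
  refine ⟨fun n => f (g n), fun n n' h => hg1 (hf h), fun n => hB' (hfB _), qs, hmem,
    fun n => hqsp _ (hg2 n), fun n l => v (g n) (ψ l), fun n n' l h => hg1 (hv _ _ _ h),
    fun n l => ?_⟩
  change T (ψ l) ++ [v (g n) (ψ l)] <+: q'.s (E (f (g n)) l)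
  refine List.IsPrefix.trans ?_ (hle.1 _)
  rw [← h3 _ (hfB (g n)) l]
  exact hvs (g n) (ψ l)

/-- Lemma W. -/
theorem lemW (A : Set K) (hA : IsLowerSet A) : LW R a A := by
  have h : ∀ y : K, LW R a (Iic y) := by
    intro y
    induction y using WellFoundedLT.induction with
    | ind y ih => exact lw_succ y (lw_limit (isLowerSet_Iio y) fun z hz => ih z hz)
  exact lw_limit hA fun y _ => h y

/-- The countable chain condition. -/
theorem ccc_St (A : Set K) (hA : IsLowerSet A) (B : Set (Cond K I)) (hB : B ⊆ St R a A)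
    (h : ∀ p ∈ B, ∀ q ∈ B, p ≠ q → ¬ ∃ s ∈ St R a A, s ≤ p ∧ s ≤ q) : B.Countable := by
  by_contra hc
  obtain ⟨t, ht⟩ := lemW (R := R) (a := a) A hA (Cond K I) B hc id (fun j hj => hB hj) 0
    (fun _ => Fin.elim0) (fun _ _ _ _ l => Fin.elim0 l)
  obtain ⟨f, hf, hfB, q, hq, hqp, -⟩ := ht 2
  refine h (f 0) (hfB 0) (f 1) (hfB 1) (fun h' => ?_) ⟨q, hq, hqp 0, hqp 1⟩
  have := hf h'
  simp at this

end Pool.Agent.Unif
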