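import Pool.Agent.Work.MP_c629c8_al.Unif.Book
import Pool.Agent.Work.MP_c629c8_al.Unif.Dens
import Pool.Agent.Work.MP_c629c8_al.Unif.LemW1

/-!
# The frame: every name of a Ramsey system is solved
-/

open Cardinal Set

namespace Pool.Agent.Unif

section

variable {K I : Type} [LinearOrder K] [WellFoundedLT K]
variable {R : List ℕ → ℕ → ℕ → ℕ} {a : K → Code K I}

/-- Amalgamation of a condition with a stronger condition of an earlier stage. -/
theorem exists_amalg {x q : Cond K I} {y : K} (hx : x ∈ St R a univ) (hq : q ∈ St R a (Iio y))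
    (hle : q ≤ x.res (Iio y)) : ∃ t ∈ St R a univ, t ≤ x ∧ t ≤ q := by
  classical
  let m : K → I → Option ℕ := fun z i => if z < y then q.n z i else x.n z i
  have hfn : {w : K × I | m w.1 w.2 ≠ none}.Finite := by
    refine (q.fn.union x.fn).subset fun w hw => ?_
    change m w.1 w.2 ≠ none at hw
    by_cases h : w.1 < y
    · left
      simpa [m, h] using hw
    · right
      simpa [m, h] using hw
  let t : Cond K I := ⟨q.s, m, q.fs, hfn⟩
  have hm1 : ∀ z, z < y → ∀ i, t.n z i = q.n z i := fun z hz i => if_pos hz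
  have hm2 : ∀ z, ¬ z < y → ∀ i, t.n z i = x.n z i := fun z hz i => if_neg hz
  have htq : t ≤ q := by
    refine ⟨fun i => List.prefix_rfl, fun z i b hb => ?_⟩
    have h1 : z < y := (hq z i (by rw [hb]; simp)).1
    rw [hm1 z h1, hb]
  have htx : t ≤ x := by
    refine ⟨hle.1, fun z i b hb => ?_⟩
    by_cases hz : z < y
    · rw [hm1 z hz]
      refine hle.2 z i b ?_
      rw [Cond.res_n _ (show z ∈ Iio y from hz), hb]
    · rw [hm2 z hz, hb]
  refine ⟨t, mem_of_local (fun _ _ _ => mem_univ _) fun z i _ => ?_, htx, htq⟩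
  by_cases hz : z < y
  · exact ⟨q, St_mono (subset_univ _) hq, fun j => (hm1 z hz j).symm, Cond.res_mono htq _⟩
  · exact ⟨x, hx, fun j => (hm2 z hz j).symm, Cond.res_mono htx _⟩

/-- A maximal antichain below a set of conditions. -/
theorem exists_maximal (D : Set (Cond K I)) (hD : D ⊆ St R a univ) :
    ∃ A ⊆ D, A.Countable ∧ ∀ q ∈ D, ∃ b ∈ A, ∃ t ∈ St R a univ, t ≤ q ∧ t ≤ b := by
  classical
  let F : Set (Set (Cond K I)) := {A | A ⊆ D ∧ ∀ p ∈ A, ∀ q ∈ A, p ≠ q →
    ¬ ∃ s ∈ St R a univ, s ≤ p ∧ s ≤ q}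
  obtain ⟨A, hA⟩ : ∃ A, Maximal (· ∈ F) A := by
    refine zorn_subset F fun c hc hch => ⟨⋃₀ c, ⟨sUnion_subset fun s hs => (hc hs).1, ?_⟩,
      fun s hs => subset_sUnion_of_mem hs⟩
    rintro p ⟨s, hs, hps⟩ q ⟨s', hs', hqs⟩ hne
    rcases hch.total hs hs' with h | h
    · exact (hc hs').2 p (h hps) q hqs hne
    · exact (hc hs).2 p hps q (h hqs) hne
  refine ⟨A, hA.prop.1, ccc_St (R := R) (a := a) univ isLowerSet_univ A
    (hA.prop.1.trans hD) hA.prop.2, fun q hq => ?_⟩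
  by_contra h
  push Not at h
  have h1 : insert q A ∈ F := by
    refine ⟨insert_subset hq hA.prop.1, ?_⟩
    rintro p (rfl | hp) q' (rfl | hq') hne ⟨s, hs, hsp, hsq⟩
    · exact hne rfl
    · exact h q' hq' s hs hsp hsq
    · exact h p hp s hs hsq hsp
    · exact hA.prop.2 p hp q' hq' hne ⟨s, hs, hsp, hsq⟩
  have h2 : q ∈ A := hA.le_of_ge h1 (subset_insert q A) (mem_insert q A)
  exact h q h2 q (hD hq) le_rfl le_rfl

/-- If all members of the antichains which generate a good name belong to the stage `y`, and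
if the code of the coordinate `y` enumerates them, then the coordinate `y` is good and gives a
solution. -/
theorem solve_at {y : K} {D : List ℕ → Finset I → Set (St R a univ)} (hD : GoodName R D)
    (A : List ℕ → Finset I → Set (Cond K I))
    (hA1 : ∀ r E, ∀ b ∈ A r E, ∃ h : b ∈ St R a univ, (⟨b, h⟩ : St R a univ) ∈ D r E)
    (hA2 : ∀ r E (q : St R a univ), q ∈ D r E → ∃ b ∈ A r E, ∃ t ∈ St R a univ, t ≤ q.1 ∧ t ≤ b)
    (hA3 : ∀ r E, ∀ b ∈ A r E, b ∈ St R a (Iio y))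
    (hy : ∀ r E, {b | ∃ j, a y r E j = some b} = A r E) :
    GoodIn R (stage R a y) (dn (stage R a y) (a y)) ∧
      ∀ r E (q : Cond K I) (hq : q ∈ St R a univ), q ∈ dn (stage R a y) (a y) r E →
        (⟨q, hq⟩ : St R a univ) ∈ D r E := by
  have hst : ∀ q, q ∈ stage R a y ↔ q ∈ St R a (Iio y) := fun q => by rw [stage_eq]
  have hres : ∀ q, q ∈ St R a (Iio y) → q.res (Iio y) = q := fun q hq =>
    Cond.res_eq_self fun x i hx => (hq x i hx).1
  have hdn : ∀ r E q, q ∈ dn (stage R a y) (a y) r E ↔ q ∈ St R a (Iio y) ∧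
      ∀ q' ∈ St R a (Iio y), q' ≤ q → ∃ q'' ∈ St R a (Iio y), q'' ≤ q' ∧ ∃ b ∈ A r E, q'' ≤ b := by
    intro r E q
    unfold dn nameOf
    rw [hy, stage_eq]
    rfl
  -- below a condition of `D r E` there is one of the stage below the antichain
  have key : ∀ r E (q : St R a univ), q ∈ D r E → ∀ q' ∈ St R a (Iio y), q.1 ≤ q' →
      ∃ q'' ∈ St R a (Iio y), q'' ≤ q' ∧ ∃ b ∈ A r E, q'' ≤ b := by
    intro r E q hq q' hq' hle
    obtain ⟨b, hb, t, ht, htq, htb⟩ := hA2 r E q hq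
    refine ⟨t.res (Iio y), ?_, ?_, b, hb, ?_⟩
    · rw [← stage_eq]
      exact res_mem_stage ht y
    · rw [← hres q' hq']
      exact Cond.res_mono (htq.trans hle) _
    · rw [← hres b (hA3 r E b hb)]
      exact Cond.res_mono htb _
  have h1 : ∀ r E (q : Cond K I) (hq : q ∈ St R a univ), q ∈ dn (stage R a y) (a y) r E →
      (⟨q, hq⟩ : St R a univ) ∈ D r E := by
    intro r E q hq hqd
    obtain ⟨hqs, h2⟩ := (hdn r E q).1 hqd
    refine hD.dense r E _ fun x hx => ?_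
    have hx1 : x.1.res (Iio y) ∈ St R a (Iio y) := by
      rw [← stage_eq]
      exact res_mem_stage x.2 y
    have hx2 : x.1.res (Iio y) ≤ q := by
      rw [← hres q hqs]
      exact Cond.res_mono hx _
    obtain ⟨q'', h3, h4, b, h5, h6⟩ := h2 _ hx1 hx2
    obtain ⟨t, ht, htx, htq⟩ := exists_amalg x.2 h3 h4
    obtain ⟨hb, hbD⟩ := hA1 r E b h5
    exact ⟨⟨t, ht⟩, htx, hD.anti r E (show (⟨t, ht⟩ : St R a univ) ≤ ⟨b, hb⟩ from htq.trans h6) hbD⟩
  have h2 : ∀ r E (q : Cond K I) (hq : q ∈ St R a (Iio y)),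
      (⟨q, St_mono (subset_univ _) hq⟩ : St R a univ) ∈ D r E →
      q ∈ dn (stage R a y) (a y) r E := by
    intro r E q hq hqD
    refine (hdn r E q).2 ⟨hq, fun q' hq' hle => ?_⟩
    refine key r E ⟨q', St_mono (subset_univ _) hq'⟩ (hD.anti r E ?_ hqD) q' hq' le_rfl
    exact hle
  refine ⟨⟨?_, ?_, ?_⟩, h1⟩
  · intro r E E' hE q hq
    have hqs : q ∈ St R a (Iio y) := ((hdn r E q).1 hq).1
    exact h2 r E' q hqs (hD.mono r hE (h1 r E q _ hq))
  · intro r E hE q hq
    exact h2 r E q ((hst q).1 hq) (hD.small r E hE _)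
  · intro r k N q hq E hE
    have hqs : q ∈ St R a (Iio y) := (hst q).1 hq
    obtain ⟨q', hq', J, hJ, E', hE', hq'E⟩ := hD.ramsey r k N ⟨q, St_mono (subset_univ _) hqs⟩ E
      fun j => ⟨(hE j).1, h1 r (E j) q _ (hE j).2⟩
    obtain ⟨q'', h3, h4, b, h5, h6⟩ := key r E' q' hq'E q hqs hq'
    obtain ⟨hb, hbD⟩ := hA1 r E' b h5
    refine ⟨q'', (hst q'').2 h3, h4, J, hJ, E', hE', h2 r E' q'' h3 ?_⟩
    exact hD.anti r E' (show (⟨q'', _⟩ : St R a univ) ≤ ⟨b, hb⟩ from h6) hbD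

end

/-- The frame exists. -/
theorem exists_uframe (R : List ℕ → ℕ → ℕ → ℕ) (I : Type) (hI : #I = ℵ₁) :
    Nonempty (UFrame R I) := by
  classical
  obtain ⟨K, i1, i2, hK, hub, hbook⟩ := exists_index
  obtain ⟨a, ha⟩ := hbook (Code K I) ⟨fun _ _ _ => none⟩ (mk_code hK hI)
  have hinf : Infinite I := by
    rw [infinite_iff, hI]
    exact aleph0_le_aleph 1
  refine ⟨{
    Q := St R a univ
    pQ := inferInstance
    tQ := { top := ⟨Cond.one, one_mem univ⟩, le_top := fun q => q.1.le_one }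
    ccc := ?_
    st := fun q => q.1.s
    st_mono := fun i h => h.1 i
    st_grow := ?_
    st_split := ?_
    solve := ?_ }⟩
  · intro A hA
    have h1 : (Subtype.val '' A).Countable := by
      refine ccc_St (R := R) (a := a) univ isLowerSet_univ _ ?_ ?_
      · rintro _ ⟨p, -, rfl⟩
        exact p.2
      · rintro _ ⟨p, hp, rfl⟩ _ ⟨q, hq, rfl⟩ hne ⟨s, hs, hsp, hsq⟩
        exact hA p hp q hq (fun h => hne (congrArg _ h)) ⟨⟨s, hs⟩, hsp, hsq⟩
    exact countable_of_injective_of_countable_image Subtype.val_injective.injOn h1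
  · intro p i n
    obtain ⟨q, hq, h1, h2⟩ := exists_grow p.2 i n
    exact ⟨⟨q, hq⟩, h1, h2⟩
  · intro p i j hij
    obtain ⟨q, hq, h1, h2, h3⟩ := exists_split p.2 hij
    exact ⟨⟨q, hq⟩, h1, h2, h3⟩
  · intro D hD
    -- countable antichains
    have h1 : ∀ r E, ∃ A : Set (Cond K I), A ⊆ Subtype.val '' D r E ∧ A.Countable ∧
        ∀ q ∈ Subtype.val '' D r E, ∃ b ∈ A, ∃ t ∈ St R a univ, t ≤ q ∧ t ≤ b := fun r E =>
      exists_maximal (R := R) (a := a) (Subtype.val '' D r E) (by rintro _ ⟨p, -, rfl⟩; exact p.2)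
    choose A hA1 hA2 hA3 using h1
    -- the coordinates are bounded
    let S : Set K := ⋃ w : List ℕ × Finset I, ⋃ b ∈ A w.1 w.2, {x | ∃ i, b.n x i ≠ none}
    have hS : #S ≤ ℵ₁ := by
      have h2 : ∀ w : List ℕ × Finset I, #(⋃ b ∈ A w.1 w.2, {x | ∃ i, b.n x i ≠ none} : Set K) ≤ ℵ₀ :=
        fun w => le_aleph0_iff_set_countable.2 ((hA2 w.1 w.2).biUnion fun b _ => b.fin_x.countable)
      have h3 : #(List ℕ × Finset I) ≤ ℵ₁ := by
        rw [mk_prod, lift_id, lift_id, mk_finset_of_infinite, hI]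
        have h4 : #(List ℕ) ≤ ℵ₁ := (mk_le_aleph0 (α := List ℕ)).trans (aleph0_le_aleph 1)
        exact (mul_le_mul' h4 le_rfl).trans (mul_eq_self (aleph0_le_aleph 1)).le
      refine (mk_iUnion_le _).trans ?_
      refine (mul_le_mul' h3 (ciSup_le' fun w => (h2 w).trans (aleph0_le_aleph 1))).trans ?_
      exact (mul_eq_self (aleph0_le_aleph 1)).le
    obtain ⟨d, hd⟩ := hub S hS
    -- the code
    have h4 : ∀ r E, ∃ c : ℕ → Option (Cond K I), {b | ∃ j, c j = some b} = A r E := by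
      intro r E
      rcases (A r E).eq_empty_or_nonempty with h | h
      · refine ⟨fun _ => none, ?_⟩
        rw [h]
        ext b
        simp
      · obtain ⟨g, hg⟩ := (hA2 r E).exists_eq_range h
        refine ⟨fun j => some (g j), ?_⟩
        rw [hg]
        ext b
        simp
    choose c hc using h4
    obtain ⟨y, hdy, hy⟩ := ha c d
    obtain ⟨hgood, hback⟩ := solve_at (y := y) hD A
      (fun r E b hb => by
        obtain ⟨q, hq, rfl⟩ := hA1 r E hb
        exact ⟨q.2, hq⟩)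
      (fun r E q hq => hA3 r E q.1 ⟨q, hq, rfl⟩)
      (fun r E b hb z i hz => by
        obtain ⟨q, hq, rfl⟩ := hA1 r E hb
        have h5 : z ∈ S := mem_iUnion.2 ⟨(r, E), mem_iUnion₂.2 ⟨q.1, hb, i, hz⟩⟩
        exact ⟨(hd z h5).trans hdy, (q.2 z i hz).2⟩)
      (fun r E => by rw [hy]; exact hc r E)
    refine ⟨fun q i => q.1.n y i, fun p q i m hqp h => hqp.2 y i m h, fun p i => ?_, ?_⟩
    · obtain ⟨q, hq, h1, h2⟩ := exists_dom hgood p.2 i
      exact ⟨⟨q, hq⟩, h1, Option.ne_none_iff_exists'.1 h2⟩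
    · intro q r E hE
      rcases E.eq_empty_or_nonempty with rfl | ⟨i, hi⟩
      · exact hD.small r _ (by simp) q
      obtain ⟨-, m, hm, hqm⟩ := hE i hi
      change q.1.n y i = some m at hqm
      have h5 := (q.2 y i (by rw [hqm]; simp)).2
      have h6 : q.1.res (Iio y) ∈ dn (stage R a y) (a y) r E :=
        hgood.mono r (fun j hj => mem_er.2 (hE j hj)) (h5.2.2 r)
      have h7 : q.1.res (Iio y) ∈ St R a univ := St_mono (subset_univ _) (res_mem q.2
        (isLowerSet_Iio y))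
      exact hD.anti r E (show q ≤ ⟨q.1.res (Iio y), h7⟩ from q.1.le_res _) (hback r E _ h7 h6)

end Pool.Agent.Unif
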