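import Mathlib

/-!
# Ramsey systems, good names, and frames for uniformisation

`R : List ℕ → ℕ → ℕ → ℕ` is a fixed bound. A system of families `𝒦 r` (`r` a node, that is a finite
sequence of natural numbers) of finite subsets of `I` is `R`-Ramsey if it is closed under subsets,
contains all sets with at most one element, and if among any `R r k N` members of `𝒦 r` with at
most `k` elements there are `N` whose union is a member of `𝒦 r`.
-/

open Cardinal

namespace Pool.Agent.Unif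

/-- A system of families of finite sets indexed by the nodes which is `R`-Ramsey. -/
structure IsRamsey (R : List ℕ → ℕ → ℕ → ℕ) {I : Type} (𝒦 : List ℕ → Set (Finset I)) : Prop where
  mono : ∀ r E E', E' ⊆ E → E ∈ 𝒦 r → E' ∈ 𝒦 r
  small : ∀ r (E : Finset I), E.card ≤ 1 → E ∈ 𝒦 r
  ramsey : ∀ r k N (E : Fin (R r k N) → Finset I), (∀ j, (E j).card ≤ k ∧ E j ∈ 𝒦 r) →
    ∃ J : Finset (Fin (R r k N)), N ≤ J.card ∧ ∃ E' ∈ 𝒦 r, ∀ j ∈ J, E j ⊆ E'

/-- A name of an `R`-Ramsey system for the partial order `Q`: `D r E` is the set of the conditions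
which force that `E` belongs to the family at the node `r`. -/
structure GoodName (R : List ℕ → ℕ → ℕ → ℕ) {Q I : Type} [PartialOrder Q]
    (D : List ℕ → Finset I → Set Q) : Prop where
  anti : ∀ r E {q q' : Q}, q' ≤ q → q ∈ D r E → q' ∈ D r E
  dense : ∀ r E (q : Q), (∀ q' ≤ q, ∃ q'' ≤ q', q'' ∈ D r E) → q ∈ D r E
  mono : ∀ r {E E' : Finset I}, E' ⊆ E → D r E ⊆ D r E'
  small : ∀ r (E : Finset I), E.card ≤ 1 → ∀ q, q ∈ D r E
  ramsey : ∀ r k N (q : Q) (E : Fin (R r k N) → Finset I), (∀ j, (E j).card ≤ k ∧ q ∈ D r (E j)) →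
    ∃ q' ≤ q, ∃ J : Finset (Fin (R r k N)), N ≤ J.card ∧ ∃ E', (∀ j ∈ J, E j ⊆ E') ∧ q' ∈ D r E'

/-- Two conditions are compatible. -/
def Compat {Q : Type} [PartialOrder Q] (p q : Q) : Prop := ∃ s, s ≤ p ∧ s ≤ q

/-- A ccc partial order which adds different branches of `ω^{<ω}`, one for every `i : I` (`st q i` is
the part of the `i`-th branch decided by `q`), and which solves the uniformisation problems given
by names of `R`-Ramsey systems. -/
structure UFrame (R : List ℕ → ℕ → ℕ → ℕ) (I : Type) where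
  Q : Type
  pQ : PartialOrder Q
  tQ : OrderTop Q
  ccc : ∀ A : Set Q, (∀ p ∈ A, ∀ q ∈ A, p ≠ q → ¬ Compat p q) → A.Countable
  st : Q → I → List ℕ
  st_mono : ∀ {p q : Q} i, q ≤ p → st p i <+: st q i
  st_grow : ∀ p i n, ∃ q ≤ p, n ≤ (st q i).length
  st_split : ∀ p i j, i ≠ j → ∃ q ≤ p, ¬ (st q i <+: st q j) ∧ ¬ (st q j <+: st q i)
  solve : ∀ D : List ℕ → Finset I → Set Q, GoodName R D →
    ∃ nu : Q → I → Option ℕ,
      (∀ p q i m, q ≤ p → nu p i = some m → nu q i = some m) ∧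
      (∀ p i, ∃ q ≤ p, ∃ m, nu q i = some m) ∧
      ∀ q r (E : Finset I), (∀ i ∈ E, r <+: st q i ∧ ∃ m ≤ r.length, nu q i = some m) → q ∈ D r E

end Pool.Agent.Unif
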