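import Pool.Agent.Work.MP_c629c8_al.Unif.Cond

/-!
# The index set of the iteration and the bookkeeping
-/

open Cardinal Set Order

namespace Pool.Agent.Unif

/-- The index set of the iteration: a well-order of type `2 ^ ℵ₁` in which all sets of size at most
`ℵ₁` are bounded, with functions which take each value cofinally often. -/
theorem exists_index : ∃ (K : Type) (_ : LinearOrder K) (_ : WellFoundedLT K),
    #K = 2 ^ ℵ₁ ∧ (∀ s : Set K, #s ≤ ℵ₁ → ∃ d, ∀ b ∈ s, b < d) ∧
      ∀ C : Type, Nonempty C → #C ≤ 2 ^ ℵ₁ → ∃ a : K → C, ∀ c x, ∃ y, x < y ∧ a y = c := by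
  have hinf : ℵ₀ ≤ (2 : Cardinal.{0}) ^ ℵ₁ :=
    (aleph0_le_aleph 1).trans (cantor _).le
  refine ⟨((2 : Cardinal.{0}) ^ ℵ₁).ord.ToType, inferInstance, inferInstance, mk_ord_toType _,
    ?_, ?_⟩
  · intro s hs
    rw [← not_isCofinal_iff]
    intro h
    have h1 := cof_le h
    rw [Ordinal.cof_toType] at h1
    have h2 : ℵ₁ < ((2 : Cardinal.{0}) ^ ℵ₁).ord.cof :=
      lt_cof_ord_power (aleph0_le_aleph 1) one_lt_two
    exact absurd (h1.trans hs) (not_le.2 h2)
  · intro C hC hc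
    have h1 : #(((2 : Cardinal.{0}) ^ ℵ₁).ord.ToType × C) =
        #(((2 : Cardinal.{0}) ^ ℵ₁).ord.ToType) := by
      rw [mk_prod, lift_id, lift_id, mk_ord_toType]
      exact mul_eq_left hinf hc (mk_ne_zero C)
    obtain ⟨e⟩ := Cardinal.eq.1 h1
    refine ⟨fun y => (e.symm y).2, fun c x => ?_⟩
    by_contra h
    push Not at h
    have h2 : ∀ z, e (z, c) ≤ x := by
      intro z
      by_contra h3
      exact h _ (not_le.1 h3) (by rw [Equiv.symm_apply_apply])
    have h4 : #(((2 : Cardinal.{0}) ^ ℵ₁).ord.ToType) ≤ #(Iic x) :=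
      mk_le_of_injective (f := fun z => (⟨e (z, c), h2 z⟩ : Iic x)) fun z w hzw => by
        have := e.injective (congrArg Subtype.val hzw)
        exact (Prod.ext_iff.1 this).1
    have h5 : #(Iic x) < (2 : Cardinal.{0}) ^ ℵ₁ := by
      have h6 : Iic x ⊆ insert x (Iio x) := fun z hz => by
        rcases eq_or_lt_of_le (show z ≤ x from hz) with h | h
        · exact Or.inl h
        · exact Or.inr h
      refine (mk_le_mk_of_subset h6).trans_lt ((mk_insert_le).trans_lt ?_)
      have h7 : #(Iio x) < #(((2 : Cardinal.{0}) ^ ℵ₁).ord.ToType) :=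
        mk_Iio_lt x (by rw [mk_ord_toType, Ordinal.type_toType])
      rw [mk_ord_toType] at h7
      exact add_lt_of_lt hinf h7 (one_lt_aleph0.trans_le hinf)
    rw [mk_ord_toType] at h4
    exact absurd h4 (not_le.2 h5)

section

variable {K I : Type}

theorem mk_cond (hK : #K = 2 ^ ℵ₁) (hI : #I = ℵ₁) : #(Cond K I) ≤ 2 ^ ℵ₁ := by
  classical
  have hinf : ℵ₀ ≤ (2 : Cardinal.{0}) ^ ℵ₁ := (aleph0_le_aleph 1).trans (cantor _).le
  have hK' : Infinite K := by
    rw [infinite_iff, hK]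
    exact hinf
  have hI' : Infinite I := by
    rw [infinite_iff, hI]
    exact aleph0_le_aleph 1
  let A : Type := Finset (I × List ℕ) × Finset ((K × I) × ℕ)
  have f1 : ∀ p : Cond K I, {w : I × List ℕ | p.s w.1 = w.2 ∧ w.2 ≠ []}.Finite := by
    intro p
    refine (p.fs.image fun i => (i, p.s i)).subset ?_
    rintro ⟨i, l⟩ ⟨h1, h2⟩
    simp only at h1 h2
    subst h1
    exact ⟨i, h2, rfl⟩
  have f2 : ∀ p : Cond K I, {w : (K × I) × ℕ | p.n w.1.1 w.1.2 = some w.2}.Finite := by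
    intro p
    refine (p.fn.image fun w => (w, (p.n w.1 w.2).getD 0)).subset ?_
    rintro ⟨w, m⟩ h
    simp only [mem_ofPred_eq] at h
    refine ⟨w, ?_, ?_⟩
    · change p.n w.1 w.2 ≠ none
      rw [h]
      simp
    · simp [h]
  have h1 : #(Cond K I) ≤ #A := by
    refine mk_le_of_injective (f := fun p => ((f1 p).toFinset, (f2 p).toFinset)) ?_
    intro p q hpq
    have e1 : (f1 p).toFinset = (f1 q).toFinset := congrArg Prod.fst hpq
    have e2 : (f2 p).toFinset = (f2 q).toFinset := congrArg Prod.snd hpq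
    have e1' : ∀ i l, (p.s i = l ∧ l ≠ []) ↔ (q.s i = l ∧ l ≠ []) := by
      intro i l
      have := Finset.ext_iff.1 e1 (i, l)
      simpa using this
    have e2' : ∀ x i m, p.n x i = some m ↔ q.n x i = some m := by
      intro x i m
      have := Finset.ext_iff.1 e2 ((x, i), m)
      simpa using this
    ext1
    · funext i
      by_cases hp : p.s i = []
      · by_cases hq : q.s i = []
        · rw [hp, hq]
        · exact absurd ((e1' i (q.s i)).2 ⟨rfl, hq⟩).1 (by rw [hp]; exact fun h => hq h.symm)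
      · exact ((e1' i (p.s i)).1 ⟨rfl, hp⟩).1.symm
    · funext x i
      rcases hp : p.n x i with _ | m
      · rcases hq : q.n x i with _ | m
        · rfl
        · rw [(e2' x i m).2 hq] at hp
          exact absurd hp (by simp)
      · exact ((e2' x i m).1 hp).symm
  refine h1.trans ?_
  have h2 : #A = ℵ₁ * (2 ^ ℵ₁) := by
    change #(Finset (I × List ℕ) × Finset ((K × I) × ℕ)) = _
    rw [mk_prod, lift_id, lift_id, mk_finset_of_infinite, mk_finset_of_infinite]
    have a1 : #(I × List ℕ) = ℵ₁ := by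
      rw [mk_prod, lift_id, lift_id, hI, mk_list_eq_aleph0 ℕ]
      exact mul_aleph0_eq (aleph0_le_aleph 1)
    have a2 : #((K × I) × ℕ) = 2 ^ ℵ₁ := by
      rw [mk_prod, mk_prod, lift_id, lift_id, lift_id, lift_id, hI, hK, mk_nat]
      rw [mul_eq_left hinf (cantor _).le (aleph_pos 1).ne', mul_aleph0_eq hinf]
    rw [a1, a2]
  rw [h2]
  exact (mul_eq_right hinf (cantor _).le (aleph_pos 1).ne').le

theorem mk_code (hK : #K = 2 ^ ℵ₁) (hI : #I = ℵ₁) : #(Code K I) ≤ 2 ^ ℵ₁ := by
  classical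
  have hinf : ℵ₀ ≤ (2 : Cardinal.{0}) ^ ℵ₁ := (aleph0_le_aleph 1).trans (cantor _).le
  have hI' : Infinite I := by
    rw [infinite_iff, hI]
    exact aleph0_le_aleph 1
  have h1 : #(Option (Cond K I)) ≤ 2 ^ ℵ₁ := by
    rw [mk_option]
    exact add_le_of_le hinf (mk_cond hK hI) (one_le_aleph0.trans hinf)
  have h2 : #(Code K I) = ((#(Option (Cond K I)) ^ ℵ₀) ^ ℵ₁) ^ ℵ₀ := by
    change #(List ℕ → Finset I → ℕ → Option (Cond K I)) = _
    rw [← power_def, ← power_def, ← power_def, mk_finset_of_infinite, hI, mk_nat,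
      mk_list_eq_aleph0 ℕ]
  rw [h2]
  calc ((#(Option (Cond K I)) ^ ℵ₀) ^ ℵ₁) ^ ℵ₀ ≤ (((2 ^ ℵ₁) ^ ℵ₀) ^ ℵ₁) ^ ℵ₀ :=
        power_le_power_right (power_le_power_right (power_le_power_right h1))
    _ = 2 ^ ℵ₁ := by
        rw [← power_mul, ← power_mul, ← power_mul, mul_aleph0_eq (aleph0_le_aleph 1),
          aleph0_mul_eq (aleph0_le_aleph 1), mul_eq_self (aleph0_le_aleph 1)]

end

end Pool.Agent.Unif
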