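import Pool.Agent.Work.MP_c629c8_al.Unif.Cond

/-!
# The number of conditions and of codes
-/

open Cardinal

namespace Pool.Agent.Unif

variable {K I : Type}

/-- The finite graph of a condition. -/
noncomputable def Cond.graph (p : Cond K I) : Finset (I × List ℕ) × Finset (K × I × ℕ) :=
  ((p.fs.image (fun i => (i, p.s i))).toFinset,
    (p.fn.image (fun w => (w.1, w.2, (p.n w.1 w.2).getD 0))).toFinset)

theorem Cond.graph_injective : Function.Injective (Cond.graph (K := K) (I := I)) := by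
  intro p q h
  have h1 : ∀ i t, (i, t) ∈ p.graph.1 ↔ p.s i ≠ [] ∧ p.s i = t := by
    intro i t
    simp only [Cond.graph, Set.Finite.mem_toFinset, Set.mem_image, Set.mem_ofPred_eq, Prod.mk.injEq]
    constructor
    · rintro ⟨j, hj, rfl, rfl⟩
      exact ⟨hj, rfl⟩
    · rintro ⟨hi, rfl⟩
      exact ⟨i, hi, rfl, rfl⟩
  have h1' : ∀ i t, (i, t) ∈ q.graph.1 ↔ q.s i ≠ [] ∧ q.s i = t := by
    intro i t
    simp only [Cond.graph, Set.Finite.mem_toFinset, Set.mem_image, Set.mem_ofPred_eq, Prod.mk.injEq]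
    constructor
    · rintro ⟨j, hj, rfl, rfl⟩
      exact ⟨hj, rfl⟩
    · rintro ⟨hi, rfl⟩
      exact ⟨i, hi, rfl, rfl⟩
  have h2 : ∀ x i m, (x, i, m) ∈ p.graph.2 ↔ p.n x i = some m := by
    intro x i m
    simp only [Cond.graph, Set.Finite.mem_toFinset, Set.mem_image, Set.mem_ofPred_eq, Prod.mk.injEq]
    constructor
    · rintro ⟨w, hw, rfl, rfl, rfl⟩
      obtain ⟨m, hm⟩ := Option.ne_none_iff_exists'.1 hw
      simp [hm]
    · intro hm
      exact ⟨(x, i), by simp [hm], rfl, rfl, by simp [hm]⟩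
  have h2' : ∀ x i m, (x, i, m) ∈ q.graph.2 ↔ q.n x i = some m := by
    intro x i m
    simp only [Cond.graph, Set.Finite.mem_toFinset, Set.mem_image, Set.mem_ofPred_eq, Prod.mk.injEq]
    constructor
    · rintro ⟨w, hw, rfl, rfl, rfl⟩
      obtain ⟨m, hm⟩ := Option.ne_none_iff_exists'.1 hw
      simp [hm]
    · intro hm
      exact ⟨(x, i), by simp [hm], rfl, rfl, by simp [hm]⟩
  ext1
  · funext i
    by_cases hp : p.s i = []
    · by_contra hne
      have hq : q.s i ≠ [] := fun e => hne (hp.trans e.symm)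
      have := (h1' i (q.s i)).2 ⟨hq, rfl⟩
      rw [← h] at this
      exact ((h1 i _).1 this).1 hp
    · have := (h1 i (p.s i)).2 ⟨hp, rfl⟩
      rw [h] at this
      exact ((h1' i _).1 this).2.symm
  · funext x i
    apply Option.ext
    intro m
    rw [← h2, ← h2', h]

theorem mk_cond_le (hI : #I = aleph 1) (hK : #K = 2 ^ aleph 1) : #(Cond K I) ≤ 2 ^ aleph 1 := by
  have hc : ℵ₀ ≤ (2 : Cardinal.{0}) ^ aleph 1 :=
    (aleph0_le_aleph 1).trans (cantor _).le
  have hIi : Infinite I := by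
    rw [← aleph0_le_mk_iff, hI]
    exact aleph0_le_aleph 1
  have hKi : Infinite K := by
    rw [← aleph0_le_mk_iff, hK]
    exact hc
  have hIc : #I ≤ 2 ^ aleph 1 := hI.trans_le (cantor _).le
  refine (mk_le_of_injective (Cond.graph_injective (K := K) (I := I))).trans ?_
  rw [mk_prod, lift_id, lift_id, mk_finset_of_infinite, mk_finset_of_infinite, mk_prod, mk_prod,
    mk_prod]
  simp only [lift_id]
  have h1 : #I * #(List ℕ) ≤ 2 ^ aleph 1 := mul_le_of_le hc hIc (by
    rw [mk_list_eq_aleph0]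
    exact hc)
  have h2 : #K * (#I * #ℕ) ≤ 2 ^ aleph 1 := mul_le_of_le hc hK.le (mul_le_of_le hc hIc (by
    rw [mk_nat]
    exact hc))
  exact mul_le_of_le hc h1 h2

theorem mk_code_le (hI : #I = aleph 1) (hK : #K = 2 ^ aleph 1) :
    #(List ℕ → Finset I → ℕ → Option (Cond K I)) ≤ 2 ^ aleph 1 := by
  have hc : ℵ₀ ≤ (2 : Cardinal.{0}) ^ aleph 1 :=
    (aleph0_le_aleph 1).trans (cantor _).le
  have hIi : Infinite I := by
    rw [← aleph0_le_mk_iff, hI]
    exact aleph0_le_aleph 1
  have hO : #(Option (Cond K I)) ≤ 2 ^ aleph 1 := by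
    rw [mk_option]
    exact add_le_of_le hc (mk_cond_le hI hK) (one_le_aleph0.trans hc)
  have e : (List ℕ → Finset I → ℕ → Option (Cond K I)) ≃
      (List ℕ × Finset I × ℕ → Option (Cond K I)) :=
    { toFun := fun f w => f w.1 w.2.1 w.2.2
      invFun := fun f r E n => f (r, E, n)
      left_inv := fun f => rfl
      right_inv := fun f => rfl }
  rw [mk_congr e, ← power_def]
  have hexp : #(List ℕ × Finset I × ℕ) ≤ aleph 1 := by
    rw [mk_prod, mk_prod, mk_finset_of_infinite, mk_list_eq_aleph0, mk_nat, hI]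
    simp only [lift_id]
    exact mul_le_of_le (aleph0_le_aleph 1) (aleph0_le_aleph 1)
      (mul_le_of_le (aleph0_le_aleph 1) le_rfl (aleph0_le_aleph 1))
  calc #(Option (Cond K I)) ^ #(List ℕ × Finset I × ℕ)
      ≤ (2 ^ aleph 1) ^ #(List ℕ × Finset I × ℕ) := power_le_power_right hO
    _ ≤ (2 ^ aleph 1) ^ aleph 1 := power_le_power_left (power_ne_zero _ two_ne_zero) hexp
    _ = 2 ^ aleph 1 := by
      rw [← power_mul, mul_eq_self (aleph0_le_aleph 1)]

end Pool.Agent.Unif
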