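import Pool.Agent.Work.MP_c629c8_al.Unif.Defs

/-!
# The conditions of the iteration

A condition `p` consists of finitely many stems `p.s i` (finite initial segments of the branches)
and of a finite partial function `p.n` on `K × I`. The stages of the iteration are the sets
`St R a (Iio y)` of conditions, where `a y` codes the problem of the coordinate `y`.
-/

open Cardinal Set

namespace Pool.Agent.Unif

/-- Conditions. -/
@[ext] structure Cond (K I : Type) where
  s : I → List ℕ
  n : K → I → Option ℕ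
  fs : {i | s i ≠ []}.Finite
  fn : {w : K × I | n w.1 w.2 ≠ none}.Finite

variable {K I : Type}

instance : PartialOrder (Cond K I) where
  le p q := (∀ i, q.s i <+: p.s i) ∧ ∀ x i m, q.n x i = some m → p.n x i = some m
  le_refl p := ⟨fun i => List.prefix_rfl, fun _ _ _ h => h⟩
  le_trans p q t h1 h2 := ⟨fun i => (h2.1 i).trans (h1.1 i), fun x i m h => h1.2 x i m (h2.2 x i m h)⟩
  le_antisymm p q h1 h2 := by
    ext1
    · funext i
      exact (h2.1 i).eq_of_length_le (h1.1 i).length_le
    · funext x i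
      rcases hp : p.n x i with _ | m
      · rcases hq : q.n x i with _ | m
        · rfl
        · rw [h1.2 x i m hq] at hp
          exact absurd hp (by simp)
      · rw [h2.2 x i m hp]

theorem Cond.le_def {p q : Cond K I} :
    p ≤ q ↔ (∀ i, q.s i <+: p.s i) ∧ ∀ x i m, q.n x i = some m → p.n x i = some m := Iff.rfl

theorem Cond.le_n {p q : Cond K I} (h : p ≤ q) {x : K} {i : I} (h' : q.n x i ≠ none) :
    p.n x i ≠ none := by
  obtain ⟨m, hm⟩ := Option.ne_none_iff_exists'.1 h'
  rw [h.2 x i m hm]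
  simp

/-- The trivial condition. -/
def Cond.one : Cond K I where
  s := fun _ => []
  n := fun _ _ => none
  fs := by simp
  fn := by simp

theorem Cond.le_one (p : Cond K I) : p ≤ Cond.one :=
  ⟨fun i => List.nil_prefix, fun x i m h => absurd h (by simp [Cond.one])⟩

open Classical in
/-- The restriction of a condition to a set of coordinates. -/
noncomputable def Cond.res (p : Cond K I) (A : Set K) : Cond K I where
  s := p.s
  n := fun x i => if x ∈ A then p.n x i else none
  fs := p.fs
  fn := p.fn.subset fun w hw => by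
    by_cases h : w.1 ∈ A
    · simpa [h] using hw
    · simp [h] at hw

@[simp] theorem Cond.res_s (p : Cond K I) (A : Set K) : (p.res A).s = p.s := rfl

theorem Cond.res_n (p : Cond K I) {A : Set K} {x : K} (h : x ∈ A) (i : I) :
    (p.res A).n x i = p.n x i := if_pos h

theorem Cond.res_n_not (p : Cond K I) {A : Set K} {x : K} (h : x ∉ A) (i : I) :
    (p.res A).n x i = none := if_neg h

theorem Cond.res_ne {p : Cond K I} {A : Set K} {x : K} {i : I} (h : (p.res A).n x i ≠ none) :
    x ∈ A ∧ p.n x i ≠ none := by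
  by_cases hx : x ∈ A
  · rw [p.res_n hx] at h
    exact ⟨hx, h⟩
  · exact absurd (p.res_n_not hx i) h

theorem Cond.le_res (p : Cond K I) (A : Set K) : p ≤ p.res A := by
  refine ⟨fun i => List.prefix_rfl, fun x i m h => ?_⟩
  by_cases hx : x ∈ A
  · rwa [p.res_n hx] at h
  · rw [p.res_n_not hx] at h
    exact absurd h (by simp)

theorem Cond.res_mono {p q : Cond K I} (h : p ≤ q) (A : Set K) : p.res A ≤ q.res A := by
  refine ⟨h.1, fun x i m h' => ?_⟩
  by_cases hx : x ∈ A
  · rw [q.res_n hx] at h'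
    rw [p.res_n hx]
    exact h.2 x i m h'
  · rw [q.res_n_not hx] at h'
    exact absurd h' (by simp)

theorem Cond.res_res (p : Cond K I) {A B : Set K} (h : B ⊆ A) : (p.res A).res B = p.res B := by
  ext1
  · rfl
  · funext x i
    by_cases hx : x ∈ B
    · rw [Cond.res_n _ hx, Cond.res_n _ (h hx), Cond.res_n _ hx]
    · rw [Cond.res_n_not _ hx, Cond.res_n_not _ hx]

theorem Cond.res_eq_self {p : Cond K I} {A : Set K} (h : ∀ x i, p.n x i ≠ none → x ∈ A) :
    p.res A = p := by
  ext1
  · rfl
  · funext x i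
    by_cases hx : x ∈ A
    · rw [Cond.res_n _ hx]
    · rw [Cond.res_n_not _ hx]
      by_contra h'
      exact hx (h x i fun h'' => h' h''.symm)

theorem Cond.fin_n (p : Cond K I) (x : K) : {i | p.n x i ≠ none}.Finite := by
  have h := p.fn.image Prod.snd
  exact h.subset fun i hi => ⟨(x, i), hi, rfl⟩

theorem Cond.fin_x (p : Cond K I) : {x | ∃ i, p.n x i ≠ none}.Finite := by
  have h := p.fn.image Prod.fst
  exact h.subset fun x ⟨i, hi⟩ => ⟨(x, i), hi, rfl⟩

/-- The indices which are constrained at the node `r` of the coordinate `x`. -/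
noncomputable def er (p : Cond K I) (x : K) (r : List ℕ) : Finset I :=
  Set.Finite.toFinset (s := {i | r <+: p.s i ∧ ∃ m ≤ r.length, p.n x i = some m})
    ((p.fin_n x).subset fun i ⟨_, m, _, h⟩ => by simp [h])

theorem mem_er {p : Cond K I} {x : K} {r : List ℕ} {i : I} :
    i ∈ er p x r ↔ r <+: p.s i ∧ ∃ m ≤ r.length, p.n x i = some m := by
  simp [er]

/-- The stems of the indices in the domain of the coordinate `x` are pairwise incomparable. -/
def Inc (p : Cond K I) (x : K) : Prop :=
  ∀ i j, i ≠ j → p.n x i ≠ none → p.n x j ≠ none → ¬ (p.s i <+: p.s j)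

/-- Two comparable initial segments. -/
theorem prefix_or {r s t : List ℕ} (h1 : r <+: t) (h2 : s <+: t) : r <+: s ∨ s <+: r :=
  List.prefix_or_prefix_of_prefix h1 h2

/-- If the stems get longer, no new set of constrained indices with at least two elements
appears. -/
theorem er_stem {p q : Cond K I} {x : K} (hi : Inc p x) (hs : ∀ i, p.s i <+: q.s i)
    (hn : ∀ i, p.n x i = q.n x i) (r : List ℕ) :
    er q x r ⊆ er p x r ∨ (er q x r).card ≤ 1 := by
  by_cases h : (er q x r).card ≤ 1
  · exact Or.inr h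
  left
  push Not at h
  intro i hi'
  obtain ⟨hri, m, hm, hqm⟩ := mem_er.1 hi'
  obtain ⟨j, hj, hij⟩ : ∃ j ∈ er q x r, j ≠ i := by
    by_contra h'
    push Not at h'
    have h1 : er q x r ⊆ {i} := fun j hj => Finset.mem_singleton.2 (h' j hj)
    have h2 := Finset.card_le_card h1
    simp at h2
    omega
  obtain ⟨hrj, m', hm', hqm'⟩ := mem_er.1 hj
  have hpi : p.n x i ≠ none := by rw [hn, hqm]; simp
  have hpj : p.n x j ≠ none := by rw [hn, hqm']; simp
  refine mem_er.2 ⟨?_, m, hm, by rw [hn, hqm]⟩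
  rcases prefix_or hri (hs i) with h1 | h1
  · exact h1
  · exfalso
    rcases prefix_or hrj (hs j) with h2 | h2
    · exact hi i j hij.symm hpi hpj (h1.trans h2)
    · rcases prefix_or h1 h2 with h3 | h3
      · exact hi i j hij.symm hpi hpj h3
      · exact hi j i hij hpj hpi h3

theorem Inc.stem {p q : Cond K I} {x : K} (hi : Inc p x) (hs : ∀ i, p.s i <+: q.s i)
    (hn : ∀ i, p.n x i = q.n x i) : Inc q x := by
  intro i j hij h1 h2 h3
  rw [← hn] at h1 h2
  rcases prefix_or ((hs i).trans h3) (hs j) with h4 | h4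
  · exact hi i j hij h1 h2 h4
  · exact hi j i hij.symm h2 h1 h4

/-- The regular open subset of `S` generated by the set `A`. -/
def nameOf (S A : Set (Cond K I)) : Set (Cond K I) :=
  {q | q ∈ S ∧ ∀ q' ∈ S, q' ≤ q → ∃ q'' ∈ S, q'' ≤ q' ∧ ∃ b ∈ A, q'' ≤ b}

variable (K I) in
/-- Codes of problems. -/
abbrev Code : Type := List ℕ → Finset I → ℕ → Option (Cond K I)

/-- The name coded by `c` in the set `S` of conditions. -/
def dn (S : Set (Cond K I)) (c : Code K I) (r : List ℕ) (E : Finset I) : Set (Cond K I) :=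
  nameOf S {b | ∃ j, c r E j = some b}

/-- `D` is a name of an `R`-Ramsey system for the set `S` of conditions. -/
structure GoodIn (R : List ℕ → ℕ → ℕ → ℕ) (S : Set (Cond K I))
    (D : List ℕ → Finset I → Set (Cond K I)) : Prop where
  mono : ∀ r {E E' : Finset I}, E' ⊆ E → D r E ⊆ D r E'
  small : ∀ r (E : Finset I), E.card ≤ 1 → S ⊆ D r E
  ramsey : ∀ r k N, ∀ q ∈ S, ∀ E : Fin (R r k N) → Finset I,
    (∀ j, (E j).card ≤ k ∧ q ∈ D r (E j)) →
    ∃ q' ∈ S, q' ≤ q ∧ ∃ J : Finset (Fin (R r k N)), N ≤ J.card ∧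
      ∃ E', (∀ j ∈ J, E j ⊆ E') ∧ q' ∈ D r E'

theorem nameOf_anti {S A : Set (Cond K I)} {q q' : Cond K I} (hq : q ∈ nameOf S A) (hq' : q' ∈ S)
    (h : q' ≤ q) : q' ∈ nameOf S A :=
  ⟨hq', fun t ht htq => hq.2 t ht (htq.trans h)⟩

section

variable [LinearOrder K]

/-- The condition `p` is correct at the coordinate `z`, where `S` is the stage `z` and `c` codes the
problem. -/
def Loc (R : List ℕ → ℕ → ℕ → ℕ) (S : Set (Cond K I)) (c : Code K I) (z : K) (p : Cond K I) :
    Prop :=
  GoodIn R S (dn S c) ∧ Inc p z ∧ ∀ r, p.res (Iio z) ∈ dn S c r (er p z r)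

variable [WellFoundedLT K]

/-- The stages of the iteration. -/
noncomputable def stage (R : List ℕ → ℕ → ℕ → ℕ) (a : K → Code K I) : K → Set (Cond K I) :=
  (wellFounded_lt (α := K)).fix fun y rec =>
    {p | ∀ z i, p.n z i ≠ none → ∃ h : z < y, Loc R (rec z h) (a z) z p}

variable (R : List ℕ → ℕ → ℕ → ℕ) (a : K → Code K I)

theorem mem_stage {y : K} {p : Cond K I} : p ∈ stage R a y ↔
    ∀ z i, p.n z i ≠ none → z < y ∧ Loc R (stage R a z) (a z) z p := by
  have h : stage R a y = {p | ∀ z i, p.n z i ≠ none → ∃ _ : z < y,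
      Loc R (stage R a z) (a z) z p} := by
    unfold stage
    rw [WellFounded.fix_eq]
  rw [h]
  simp only [Set.mem_ofPred_eq, exists_prop]

/-- The conditions of the iteration with coordinates in `A`. -/
def St (A : Set K) : Set (Cond K I) :=
  {p | ∀ z i, p.n z i ≠ none → z ∈ A ∧ Loc R (stage R a z) (a z) z p}

theorem stage_eq (y : K) : stage R a y = St R a (Iio y) := by
  ext p
  rw [mem_stage]
  rfl

variable {R a}

theorem St_mono {A B : Set K} (h : A ⊆ B) : St R a A ⊆ St R a B :=
  fun _ hp z i hz => ⟨h (hp z i hz).1, (hp z i hz).2⟩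

omit [LinearOrder K] [WellFoundedLT K] in
theorem er_res {p : Cond K I} {B : Set K} {z : K} (hz : z ∈ B) (r : List ℕ) :
    er (p.res B) z r = er p z r := by
  ext i
  rw [mem_er, mem_er, Cond.res_n _ hz]
  rfl

omit [LinearOrder K] [WellFoundedLT K] in
theorem Inc_res {p : Cond K I} {B : Set K} {z : K} (hz : z ∈ B) : Inc (p.res B) z ↔ Inc p z := by
  unfold Inc
  simp only [Cond.res_n _ hz, Cond.res_s]

omit [WellFoundedLT K] in
theorem Loc_res {S : Set (Cond K I)} {c : Code K I} {p : Cond K I} {B : Set K} {z : K}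
    (hB : IsLowerSet B) (hz : z ∈ B) : Loc R S c z (p.res B) ↔ Loc R S c z p := by
  have h : Iio z ⊆ B := fun x hx => hB (le_of_lt hx) hz
  unfold Loc
  simp only [Inc_res hz, er_res hz, Cond.res_res _ h]

theorem res_mem {A B : Set K} {p : Cond K I} (hp : p ∈ St R a A) (hB : IsLowerSet B) :
    p.res B ∈ St R a (A ∩ B) := by
  intro z i hz
  obtain ⟨h1, h2⟩ := Cond.res_ne hz
  exact ⟨⟨(hp z i h2).1, h1⟩, (Loc_res hB h1).2 (hp z i h2).2⟩

theorem res_mem_stage {A : Set K} {p : Cond K I} (hp : p ∈ St R a A) (y : K) :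
    p.res (Iio y) ∈ stage R a y := by
  rw [stage_eq]
  exact St_mono inter_subset_right (res_mem hp (isLowerSet_Iio y))

/-- The induction principle for membership. -/
theorem mem_of_loc {A : Set K} {p : Cond K I} (hA : ∀ z i, p.n z i ≠ none → z ∈ A)
    (h : ∀ z i, p.n z i ≠ none → p.res (Iio z) ∈ stage R a z → Loc R (stage R a z) (a z) z p) :
    p ∈ St R a A := by
  have key : ∀ z i, p.n z i ≠ none → Loc R (stage R a z) (a z) z p := by
    intro z
    induction z using WellFoundedLT.induction with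
    | ind z ih =>
      intro i hi
      refine h z i hi ?_
      rw [mem_stage]
      intro z' i' hz'
      obtain ⟨h1, h2⟩ := Cond.res_ne hz'
      exact ⟨h1, (Loc_res (isLowerSet_Iio z) h1).2 (ih z' h1 i' h2)⟩
  exact fun z i hz => ⟨hA z i hz, key z i hz⟩

omit [WellFoundedLT K] in
/-- Correctness is inherited by stronger conditions which agree at the coordinate. -/
theorem Loc.of_le {S : Set (Cond K I)} {c : Code K I} {z : K} {p p' : Cond K I}
    (h : Loc R S c z p') (hp : p.res (Iio z) ∈ S) (hle : p.res (Iio z) ≤ p'.res (Iio z))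
    (hn : ∀ i, p'.n z i = p.n z i) : Loc R S c z p := by
  refine ⟨h.1, Inc.stem (q := p) h.2.1 hle.1 hn, fun r => ?_⟩
  rcases er_stem (q := p) h.2.1 hle.1 hn r with h1 | h1
  · exact h.1.mono r h1 (nameOf_anti (h.2.2 r) hp hle)
  · exact h.1.small r _ h1 hp

/-- A condition which locally agrees with conditions of the iteration belongs to it. -/
theorem mem_of_local {A : Set K} {p : Cond K I} (hA : ∀ z i, p.n z i ≠ none → z ∈ A)
    (h : ∀ z i, p.n z i ≠ none → ∃ p' ∈ St R a univ, (∀ j, p'.n z j = p.n z j) ∧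
      p.res (Iio z) ≤ p'.res (Iio z)) : p ∈ St R a A := by
  refine mem_of_loc hA fun z i hz hp => ?_
  obtain ⟨p', h1, h2, h3⟩ := h z i hz
  refine Loc.of_le (p' := p') (h1 z i ?_).2 hp h3 h2
  rw [h2]
  exact hz

theorem one_mem (A : Set K) : Cond.one ∈ St R a A := fun _ _ hz => absurd rfl hz

end

end Pool.Agent.Unif
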