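import Mathlib

/-!
The pigeonhole principle and the `Δ`-system lemma for uncountable families of finite sets.
-/

namespace Pool.Agent.Unif

/-- A map from an uncountable set to a countable type has an uncountable fibre. -/
theorem exists_fiber {J β : Type*} [Countable β] (A : Set J) (hA : ¬ A.Countable) (g : J → β) :
    ∃ c, ¬ {j ∈ A | g j = c}.Countable := by
  by_contra! h
  refine hA ((Set.countable_iUnion h).mono fun j hj => ?_)
  exact Set.mem_iUnion.2 ⟨g j, hj, rfl⟩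

/-- If every point belongs to only countably many of the sets of an uncountable family of finite
sets, then some uncountable subfamily is pairwise disjoint. -/
theorem exists_disjoint {J α : Type*} [DecidableEq α] (A : Set J) (hA : ¬ A.Countable)
    (f : J → Finset α) (h : ∀ a, {j ∈ A | a ∈ f j}.Countable) :
    ∃ B ⊆ A, ¬ B.Countable ∧ ∀ j ∈ B, ∀ j' ∈ B, j ≠ j' → f j ∩ f j' = ∅ := by
  obtain ⟨B, -, hB⟩ := zorn_subset_nonempty
    {B : Set J | B ⊆ A ∧ ∀ j ∈ B, ∀ j' ∈ B, j ≠ j' → f j ∩ f j' = ∅} (fun c hc hcc _ => by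
      refine ⟨⋃₀ c, ⟨Set.sUnion_subset fun s hs => (hc hs).1, ?_⟩,
        fun s hs => Set.subset_sUnion_of_mem hs⟩
      rintro j ⟨s, hs, hjs⟩ j' ⟨s', hs', hjs'⟩ hne
      rcases hcc.total hs hs' with hss | hss
      · exact (hc hs').2 j (hss hjs) j' hjs' hne
      · exact (hc hs).2 j hjs j' (hss hjs') hne) ∅ ⟨Set.empty_subset _, by simp⟩
  refine ⟨B, hB.prop.1, fun hcount => ?_, hB.prop.2⟩
  have h1 : (⋃ a ∈ ⋃ j ∈ B, (f j : Set α), {j ∈ A | a ∈ f j}).Countable :=
    (hcount.biUnion fun j _ => (f j).countable_toSet).biUnion fun a _ => h a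
  obtain ⟨j, hj, hj'⟩ : ∃ j ∈ A,
      j ∉ B ∪ ⋃ a ∈ ⋃ j ∈ B, (f j : Set α), {j ∈ A | a ∈ f j} := by
    by_contra! hno
    exact hA ((hcount.union h1).mono hno)
  rw [Set.mem_union, not_or] at hj'
  have key : ∀ k ∈ B, f j ∩ f k = ∅ := by
    intro k hk
    by_contra hne
    obtain ⟨a, ha⟩ := Finset.nonempty_iff_ne_empty.2 hne
    rw [Finset.mem_inter] at ha
    refine hj'.2 (Set.mem_iUnion₂.2 ⟨a, Set.mem_iUnion₂.2 ⟨k, hk, ha.2⟩, hj, ha.1⟩)
  refine hj'.1 (hB.le_of_ge (y := insert j B) ⟨Set.insert_subset hj hB.prop.1, ?_⟩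
    (Set.subset_insert _ _) (Set.mem_insert _ _))
  rintro k hk k' hk' hne
  rcases Set.mem_insert_iff.1 hk with h2 | h2 <;> rcases Set.mem_insert_iff.1 hk' with h3 | h3
  · exact (hne (h2.trans h3.symm)).elim
  · subst h2; exact key _ h3
  · subst h3; rw [Finset.inter_comm]; exact key _ h2
  · exact hB.prop.2 k h2 k' h3 hne

/-- The `Δ`-system lemma for sets with `n` elements. -/
theorem exists_delta_card {J α : Type*} [DecidableEq α] (n : ℕ) : ∀ (A : Set J),
    ¬ A.Countable → ∀ f : J → Finset α, (∀ j ∈ A, (f j).card = n) → ∃ (B : Set J) (ρ : Finset α),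
      B ⊆ A ∧ ¬ B.Countable ∧ (∀ j ∈ B, ρ ⊆ f j) ∧
        ∀ j ∈ B, ∀ j' ∈ B, j ≠ j' → f j ∩ f j' = ρ := by
  induction n with
  | zero =>
    intro A hA f hf
    refine ⟨A, ∅, subset_rfl, hA, fun j _ => Finset.empty_subset _, fun j hj j' _ _ => ?_⟩
    rw [Finset.card_eq_zero.1 (hf j hj), Finset.empty_inter]
  | succ n ih =>
    intro A hA f hf
    by_cases h : ∃ a, ¬ {j ∈ A | a ∈ f j}.Countable
    · obtain ⟨a, ha⟩ := h
      obtain ⟨B, ρ, hBA, hB, hρ, hd⟩ := ih _ ha (fun j => (f j).erase a) (fun j hj => by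
        rw [Finset.card_erase_of_mem hj.2, hf j hj.1]; rfl)
      refine ⟨B, insert a ρ, fun j hj => (hBA hj).1, hB, fun j hj => ?_,
        fun j hj j' hj' hne => ?_⟩
      · exact Finset.insert_subset (hBA hj).2 ((hρ j hj).trans (Finset.erase_subset _ _))
      · rw [← hd j hj j' hj' hne]
        ext x
        have h1 := (hBA hj).2
        have h2 := (hBA hj').2
        by_cases hx : x = a
        · subst hx; simp [h1, h2]
        · simp [hx]
    · push Not at h
      obtain ⟨B, hBA, hB, hd⟩ := exists_disjoint A hA f h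
      exact ⟨B, ∅, hBA, hB, fun j _ => Finset.empty_subset _, hd⟩

/-- The `Δ`-system lemma. -/
theorem exists_delta {J α : Type*} [DecidableEq α] (A : Set J) (hA : ¬ A.Countable)
    (f : J → Finset α) : ∃ (B : Set J) (ρ : Finset α), B ⊆ A ∧ ¬ B.Countable ∧
      (∀ j ∈ B, ρ ⊆ f j) ∧ ∀ j ∈ B, ∀ j' ∈ B, j ≠ j' → f j ∩ f j' = ρ := by
  obtain ⟨n, hn⟩ := exists_fiber A hA fun j => (f j).card
  obtain ⟨B, ρ, hBA, hB, h⟩ := exists_delta_card n _ hn f fun j hj => hj.2
  exact ⟨B, ρ, fun j hj => (hBA hj).1, hB, h⟩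

end Pool.Agent.Unif
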