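import Pool.Agent.Work.MP_c629c8_al.Unif.DeltaSys

/-!
# Normal forms of uncountable families of finite sets and tuples
-/

namespace Pool.Agent.Unif

theorem exists_fiber' {J b : Type} [Countable b] (A : Set J) (hA : ¬ A.Countable)
    (g : ∀ j ∈ A, b) : ∃ (B : Set J) (c : b), B ⊆ A ∧ ¬ B.Countable ∧
      ∀ j (_ : j ∈ B) (h' : j ∈ A), g j h' = c := by
  classical
  obtain ⟨c, hc⟩ := exists_fiber A hA fun j => if h : j ∈ A then some (g j h) else none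
  rcases c with _ | c
  · exfalso
    apply hc
    have h1 : {j | j ∈ A ∧ (if h : j ∈ A then some (g j h) else none) = (none : Option b)} = ∅ := by
      ext j
      simp only [Set.mem_ofPred_eq, Set.mem_empty_iff_false, iff_false, not_and]
      intro hj
      simp [hj]
    rw [h1]
    exact Set.countable_empty
  · refine ⟨_, c, fun j hj => hj.1, hc, fun j hj h' => ?_⟩
    have h1 := hj.2
    rw [dif_pos h'] at h1
    exact Option.some_injective _ h1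

/-- The normal form: the finite sets `D j` and the tuples `E j` are covered by a root and by
pairwise disjoint tuples of the same length, and the labels do not depend on `j`. -/
theorem exists_normal {J I C : Type} [Countable C] (B : Set J) (hB : ¬ B.Countable)
    (D : J → Finset I) (g : J → I → C) {k : ℕ} (E : J → Fin k → I)
    (hE : ∀ j ∈ B, ∀ j' ∈ B, ∀ l l', E j l = E j' l' → j = j' ∧ l = l') :
    ∃ B' ⊆ B, ¬ B'.Countable ∧ ∃ (ρ : Finset I) (k' : ℕ) (u : J → Fin k' → I)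
      (ψ : Fin k → Fin k') (μ : Fin k' → C) (ν : I → C),
      (∀ j ∈ B', ∀ j' ∈ B', ∀ l l', u j l = u j' l' → j = j' ∧ l = l') ∧
      (∀ j ∈ B', ∀ l, u j l ∉ ρ) ∧ (∀ j ∈ B', ∀ l, u j (ψ l) = E j l) ∧
      (∀ j ∈ B', ∀ l, g j (u j l) = μ l) ∧ (∀ j ∈ B', ∀ i ∈ ρ, g j i = ν i) ∧
      (∀ j ∈ B', ρ ⊆ D j) ∧ ∀ j ∈ B', ∀ i ∈ D j, i ∈ ρ ∨ ∃ l, u j l = i := by
  classical
  obtain ⟨B1, ρ, hB1, hc1, hρ1, hd1⟩ := exists_delta B hB D
  -- remove the indices whose tuple meets the root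
  have hc2 : ¬ {j ∈ B1 | ∀ l, E j l ∉ ρ}.Countable := by
    intro h
    apply hc1
    have h1 : {j ∈ B1 | ¬ ∀ l, E j l ∉ ρ}.Countable := by
      have h2 : ∀ j : {j // j ∈ B1 ∧ ¬ ∀ l, E j l ∉ ρ}, ∃ l, E j.1 l ∈ ρ := by
        intro j
        have := j.2.2
        push Not at this
        exact this
      choose l hl using h2
      have h3 : Function.Injective (fun j : {j // j ∈ B1 ∧ ¬ ∀ l, E j l ∉ ρ} =>
          (⟨E j.1 (l j), hl j⟩ : ρ)) := by
        intro j j' hjj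
        have h4 := (hE j.1 (hB1 j.2.1) j'.1 (hB1 j'.2.1) _ _ (Subtype.ext_iff.1 hjj)).1
        exact Subtype.ext h4
      have h5 : Countable {j // j ∈ B1 ∧ ¬ ∀ l, E j l ∉ ρ} := h3.countable
      exact h5
    refine (h.union h1).mono fun j hj => ?_
    by_cases h' : ∀ l, E j l ∉ ρ
    · exact Or.inl ⟨hj, h'⟩
    · exact Or.inr ⟨hj, h'⟩
  set B2 : Set J := {j ∈ B1 | ∀ l, E j l ∉ ρ} with hB2
  let U : J → Finset I := fun j => (D j \ ρ) ∪ Finset.univ.image (E j)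
  obtain ⟨k', hc3⟩ := exists_fiber B2 hc2 fun j => (U j).card
  set B3 : Set J := {j ∈ B2 | (U j).card = k'} with hB3
  obtain ⟨B4, ρ', hB4, hc4, hρ4, hd4⟩ := exists_delta B3 hc3 U
  have h43 : ∀ j ∈ B4, j ∈ B1 ∧ (∀ l, E j l ∉ ρ) ∧ (U j).card = k' := fun j hj =>
    ⟨(hB4 hj).1.1, (hB4 hj).1.2, (hB4 hj).2⟩
  have hmem : ∀ j x, x ∈ U j ↔ (x ∈ D j ∧ x ∉ ρ) ∨ ∃ l, E j l = x := by
    intro j x
    simp [U]
  -- the second root is empty
  have hρ' : ρ' = ∅ := by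
    rw [Finset.eq_empty_iff_forall_notMem]
    intro x hx
    have h1 : ∀ j ∈ B4, (x ∈ D j ∧ x ∉ ρ) ∨ ∃ l, E j l = x := fun j hj =>
      (hmem j x).1 (hρ4 j hj hx)
    have h2 : {j ∈ B4 | x ∈ D j ∧ x ∉ ρ}.Subsingleton := by
      intro j hj j' hj'
      by_contra hne
      have h3 := hd1 j (h43 j hj.1).1 j' (h43 j' hj'.1).1 hne
      apply hj.2.2
      rw [← h3]
      exact Finset.mem_inter.2 ⟨hj.2.1, hj'.2.1⟩
    have h3 : {j ∈ B4 | ∃ l, E j l = x}.Subsingleton := by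
      rintro j ⟨hj, l, hl⟩ j' ⟨hj', l', hl'⟩
      exact (hE j (hB1 (h43 j hj).1) j' (hB1 (h43 j' hj').1) l l' (hl.trans hl'.symm)).1
    apply hc4
    refine (h2.countable.union h3.countable).mono fun j hj => ?_
    rcases h1 j hj with h | h
    · exact Or.inl ⟨hj, h⟩
    · exact Or.inr ⟨hj, h⟩
  have hdis : ∀ j ∈ B4, ∀ j' ∈ B4, ∀ x, x ∈ U j → x ∈ U j' → j = j' := by
    intro j hj j' hj' x hx hx'
    by_contra hne
    have h1 := hd4 j hj j' hj' hne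
    have h2 : x ∈ U j ∩ U j' := Finset.mem_inter.2 ⟨hx, hx'⟩
    rw [h1, hρ'] at h2
    exact absurd h2 (Finset.notMem_empty x)
  have hne4 : B4.Nonempty := by
    by_contra h
    rw [Set.not_nonempty_iff_eq_empty] at h
    rw [h] at hc4
    exact hc4 Set.countable_empty
  -- enumerations
  have hex : ∀ j ∈ B4, ∃ w : Fin k' → I, Function.Injective w ∧ ∀ x, x ∈ U j ↔ ∃ l, w l = x := by
    intro j hj
    let e := (U j).equivFinOfCardEq (h43 j hj).2.2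
    refine ⟨fun l => (e.symm l).1, fun l l' h => e.symm.injective (Subtype.ext h), fun x => ?_⟩
    constructor
    · intro hx
      exact ⟨e ⟨x, hx⟩, by simp⟩
    · rintro ⟨l, rfl⟩
      exact (e.symm l).2
  obtain ⟨j0, hj0⟩ := hne4
  obtain ⟨w0, -, -⟩ := hex j0 hj0
  have hex' : ∀ j, ∃ w : Fin k' → I, j ∈ B4 → Function.Injective w ∧
      ∀ x, x ∈ U j ↔ ∃ l, w l = x := by
    intro j
    by_cases hj : j ∈ B4
    · obtain ⟨w, hw⟩ := hex j hj
      exact ⟨w, fun _ => hw⟩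
    · exact ⟨w0, fun h => absurd h hj⟩
  choose u hu using hex'
  have hψ : ∀ j ∈ B4, ∃ ψ : Fin k → Fin k', ∀ l, u j (ψ l) = E j l := by
    intro j hj
    have h1 : ∀ l, ∃ l', u j l' = E j l := fun l =>
      ((hu j hj).2 (E j l)).1 ((hmem j _).2 (Or.inr ⟨l, rfl⟩))
    choose ψ h2 using h1
    exact ⟨ψ, h2⟩
  choose ψ hψ using hψ
  obtain ⟨B5, ⟨ψ0, μ0, ν0⟩, hB5, hc5, h5⟩ := exists_fiber' (b := (Fin k → Fin k') ×
    (Fin k' → C) × (ρ → C)) B4 hc4
    fun j hj => (ψ j hj, fun l => g j (u j l), fun i => g j i)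
  obtain ⟨j1, hj1⟩ : B5.Nonempty := by
    by_contra h
    rw [Set.not_nonempty_iff_eq_empty] at h
    rw [h] at hc5
    exact hc5 Set.countable_empty
  refine ⟨B5, fun j hj => hB1 (h43 j (hB5 hj)).1, hc5, ρ, k', u, ψ0, μ0, fun i => g j1 i,
    ?_, ?_, ?_, ?_, ?_, ?_, ?_⟩
  · intro j hj j' hj' l l' h
    have h1 : j = j' := hdis j (hB5 hj) j' (hB5 hj') (u j l)
      (((hu j (hB5 hj)).2 _).2 ⟨l, rfl⟩) (((hu j' (hB5 hj')).2 _).2 ⟨l', h.symm⟩)
    subst h1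
    exact ⟨rfl, (hu j (hB5 hj)).1 h⟩
  · intro j hj l hl
    have h1 : u j l ∈ U j := ((hu j (hB5 hj)).2 _).2 ⟨l, rfl⟩
    rcases (hmem j _).1 h1 with h | ⟨l', h⟩
    · exact h.2 hl
    · exact (h43 j (hB5 hj)).2.1 l' (h ▸ hl)
  · intro j hj l
    have h1 := h5 j hj (hB5 hj)
    have h2 : ψ j (hB5 hj) = ψ0 := (Prod.ext_iff.1 h1).1
    rw [← h2]
    exact hψ j (hB5 hj) l
  · intro j hj l
    have h1 := h5 j hj (hB5 hj)
    exact congrFun (Prod.ext_iff.1 (Prod.ext_iff.1 h1).2).1 l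
  · intro j hj i hi
    have h1 := congrFun (Prod.ext_iff.1 (Prod.ext_iff.1 (h5 j hj (hB5 hj))).2).2 ⟨i, hi⟩
    have h2 := congrFun (Prod.ext_iff.1 (Prod.ext_iff.1 (h5 j1 hj1 (hB5 hj1))).2).2 ⟨i, hi⟩
    exact h1.trans h2.symm
  · intro j hj
    exact hρ1 j (h43 j (hB5 hj)).1
  · intro j hj i hi
    by_cases h : i ∈ ρ
    · exact Or.inl h
    · exact Or.inr (((hu j (hB5 hj)).2 i).1 ((hmem j i).2 (Or.inl ⟨hi, h⟩)))

end Pool.Agent.Unif
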