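import Pool.Agent.Work.MP_c629c8_al.Unif.Cond
import Pool.Agent.Work.MP_c629c8_al.Unif.Normal

/-!
# Lemma W: the base case and the limit case

For every uncountable family of conditions with pairwise disjoint `k`-tuples of indices there are
`k` nodes such that for every `N` there are `N` members with a common lower bound for which the
branches of the tuples split exactly at these nodes.
-/

open Cardinal Set

namespace Pool.Agent.Unif

variable {K I : Type} [LinearOrder K] [WellFoundedLT K]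

/-- The statement of Lemma W for the coordinates in `A`. -/
def LW (R : List ℕ → ℕ → ℕ → ℕ) (a : K → Code K I) (A : Set K) : Prop :=
  ∀ (J : Type) (B : Set J), ¬ B.Countable → ∀ p : J → Cond K I, (∀ j ∈ B, p j ∈ St R a A) →
    ∀ (k : ℕ) (E : J → Fin k → I),
      (∀ j ∈ B, ∀ j' ∈ B, ∀ l l', E j l = E j' l' → j = j' ∧ l = l') →
      ∃ t : Fin k → List ℕ, ∀ N : ℕ, ∃ f : Fin N → J, Function.Injective f ∧ (∀ n, f n ∈ B) ∧
        ∃ q ∈ St R a A, (∀ n, q ≤ p (f n)) ∧ ∃ v : Fin N → Fin k → ℕ,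
          (∀ n n' l, v n l = v n' l → n = n') ∧ ∀ n l, t l ++ [v n l] <+: q.s (E (f n) l)

theorem exists_inj {J : Type} {B : Set J} (hB : ¬ B.Countable) (N : ℕ) :
    ∃ f : Fin N → J, Function.Injective f ∧ ∀ n, f n ∈ B := by
  have h : B.Infinite := fun h => hB h.countable
  refine ⟨fun n => (h.natEmbedding B n.1).1, fun n n' hn => ?_, fun n => (h.natEmbedding B n.1).2⟩
  exact Fin.ext ((h.natEmbedding B).injective (Subtype.ext hn))

variable {R : List ℕ → ℕ → ℕ → ℕ} {a : K → Code K I}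

theorem lw_empty : LW R a (∅ : Set K) := by
  classical
  intro J B hB p hp k E hE
  obtain ⟨B', hB', hc, ρ, k', u, ψ, μ, ν, h1, h2, h3, h4, h5, h6, h7⟩ :=
    exists_normal B hB (fun j => (p j).fs.toFinset) (fun j i => (p j).s i) E hE
  refine ⟨fun l => μ (ψ l), fun N => ?_⟩
  obtain ⟨f, hf, hfB⟩ := exists_inj hc N
  have hn : ∀ j ∈ B', ∀ x i, (p j).n x i = none := by
    intro j hj x i
    by_contra h
    exact absurd (hp j (hB' hj) x i h).1 (notMem_empty x)
  have hE' : ∀ n l, (p (f n)).s (E (f n) l) = μ (ψ l) := by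
    intro n l
    rw [← h3 (f n) (hfB n) l]
    exact h4 (f n) (hfB n) (ψ l)
  -- nonempty stems of two members are equal or belong to tuples
  have hdis : ∀ n n' i, (p (f n)).s i ≠ [] → (p (f n')).s i ≠ [] →
      (p (f n)).s i = (p (f n')).s i ∧ (n = n' ∨ i ∈ ρ) := by
    intro n n' i hi hi'
    by_cases hi2 : i ∈ ρ
    · exact ⟨(h5 (f n) (hfB n) i hi2).trans (h5 (f n') (hfB n') i hi2).symm, Or.inr hi2⟩
    · rcases h7 (f n) (hfB n) i (by simpa using hi) with h8 | ⟨l, h8⟩
      · exact absurd h8 hi2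
      rcases h7 (f n') (hfB n') i (by simpa using hi') with h9 | ⟨l', h9⟩
      · exact absurd h9 hi2
      have h10 := (h1 (f n) (hfB n) (f n') (hfB n') l l' (h8.trans h9.symm)).1
      have h11 := hf h10
      subst h11
      exact ⟨rfl, Or.inl rfl⟩
  let s : I → List ℕ := fun i =>
    if h : ∃ w : Fin N × Fin k, E (f w.1) w.2 = i then μ (ψ h.choose.2) ++ [h.choose.1.1]
    else if h : ∃ n, (p (f n)).s i ≠ [] then (p (f h.choose)).s i else []
  have hs1 : ∀ n l, s (E (f n) l) = μ (ψ l) ++ [n.1] := by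
    intro n l
    have h : ∃ w : Fin N × Fin k, E (f w.1) w.2 = E (f n) l := ⟨(n, l), rfl⟩
    have h8 := hE _ (hB' (hfB _)) _ (hB' (hfB _)) _ _ h.choose_spec
    have h9 : h.choose.1 = n := hf h8.1
    simp only [s]
    rw [dif_pos h, h9, h8.2]
  have hs2 : ∀ n i, (p (f n)).s i <+: s i := by
    intro n i
    by_cases h0 : (p (f n)).s i = []
    · rw [h0]
      exact List.nil_prefix
    by_cases h : ∃ w : Fin N × Fin k, E (f w.1) w.2 = i
    · obtain ⟨⟨n', l⟩, h⟩ := h
      simp only at h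
      subst h
      rw [hs1]
      have h8 : n = n' := by
        rcases h7 (f n) (hfB n) _ (by simpa using h0) with h9 | ⟨l', h9⟩
        · exfalso
          rw [← h3 _ (hfB n')] at h9
          exact h2 _ (hfB n') _ h9
        · rw [← h3 _ (hfB n')] at h9
          exact hf (h1 _ (hfB n) _ (hfB n') _ _ h9).1
      subst h8
      rw [hE']
      exact List.prefix_append _ _
    · have h' : ∃ n, (p (f n)).s i ≠ [] := ⟨n, h0⟩
      have h8 : s i = (p (f h'.choose)).s i := by
        simp only [s]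
        rw [dif_neg h, dif_pos h']
      rw [h8, (hdis n h'.choose i h0 h'.choose_spec).1]
  have hfs : {i | s i ≠ []}.Finite := by
    have h8 : ((⋃ n : Fin N, range (E (f n))) ∪ ⋃ n : Fin N, {i | (p (f n)).s i ≠ []}).Finite :=
      (finite_iUnion fun n => finite_range _).union (finite_iUnion fun n => (p (f n)).fs)
    refine h8.subset fun i hi => ?_
    by_cases h : ∃ w : Fin N × Fin k, E (f w.1) w.2 = i
    · obtain ⟨⟨n', l⟩, h⟩ := h
      exact Or.inl (mem_iUnion.2 ⟨n', l, h⟩)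
    · by_cases h' : ∃ n, (p (f n)).s i ≠ []
      · obtain ⟨n, h'⟩ := h'
        exact Or.inr (mem_iUnion.2 ⟨n, h'⟩)
      · exfalso
        apply hi
        simp only [s]
        rw [dif_neg h, dif_neg h']
  refine ⟨f, hf, fun n => hB' (hfB n), ⟨s, fun _ _ => none, hfs, by simp⟩, ?_, ?_,
    fun n _ => n.1, fun n n' l h => Fin.ext h, fun n l => ?_⟩
  · intro z i hz
    exact absurd rfl hz
  · intro n
    refine ⟨hs2 n, fun x i m h => ?_⟩
    rw [hn _ (hfB n)] at h
    exact absurd h (by simp)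
  · change μ (ψ l) ++ [n.1] <+: s (E (f n) l)
    rw [hs1]

/-- The limit case. -/
theorem lw_limit {A : Set K} (hA : IsLowerSet A) (h : ∀ y ∈ A, LW R a (Iic y)) : LW R a A := by
  classical
  intro J B hB p hp k E hE
  obtain ⟨B', ρ, hB', hc, hρ, hd⟩ := exists_delta B hB fun j => (p j).fin_x.toFinset
  have hmem : ∀ j x, x ∈ (p j).fin_x.toFinset ↔ ∃ i, (p j).n x i ≠ none := by
    intro j x
    simp
  have hne : B'.Nonempty := by
    by_contra h'
    rw [Set.not_nonempty_iff_eq_empty] at h'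
    rw [h'] at hc
    exact hc Set.countable_empty
  obtain ⟨j0, hj0⟩ := hne
  -- a lower set containing the root
  obtain ⟨C, hC1, hC2, hC3, hC4⟩ : ∃ C : Set K, IsLowerSet C ∧ C ⊆ A ∧ LW R a C ∧
      ∀ x ∈ ρ, x ∈ C := by
    rcases ρ.eq_empty_or_nonempty with h1 | h1
    · exact ⟨∅, isLowerSet_empty, empty_subset _, lw_empty, by simp [h1]⟩
    · have h2 : ρ.max' h1 ∈ A := by
        obtain ⟨i, hi⟩ := (hmem j0 _).1 (hρ j0 hj0 (ρ.max'_mem h1))
        exact (hp j0 (hB' hj0) _ i hi).1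
      exact ⟨Iic (ρ.max' h1), isLowerSet_Iic _, fun x hx => hA hx h2, h _ h2,
        fun x hx => ρ.le_max' x hx⟩
  obtain ⟨t, ht⟩ := hC3 J B' hc (fun j => (p j).res C)
    (fun j hj => St_mono inter_subset_right (res_mem (hp j (hB' hj)) hC1)) k E
    fun j hj j' hj' => hE j (hB' hj) j' (hB' hj')
  refine ⟨t, fun N => ?_⟩
  obtain ⟨f, hf, hfB, q, hq, hqp, v, hv, hvs⟩ := ht N
  have huniq : ∀ n n' x, x ∉ C → (∃ i, (p (f n)).n x i ≠ none) → (∃ i, (p (f n')).n x i ≠ none) →
      n = n' := by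
    intro n n' x hx h1 h2
    by_contra hne
    have h3 := hd (f n) (hfB n) (f n') (hfB n') fun h => hne (hf h)
    have h4 : x ∈ (p (f n)).fin_x.toFinset ∩ (p (f n')).fin_x.toFinset :=
      Finset.mem_inter.2 ⟨(hmem _ x).2 h1, (hmem _ x).2 h2⟩
    rw [h3] at h4
    exact hx (hC4 x h4)
  let m : K → I → Option ℕ := fun x =>
    if x ∈ C then q.n x else if h : ∃ n, ∃ i, (p (f n)).n x i ≠ none then (p (f h.choose)).n x
      else fun _ => none
  have hm1 : ∀ x ∈ C, m x = q.n x := fun x hx => if_pos hx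
  have hm2 : ∀ n x, x ∉ C → (∃ i, (p (f n)).n x i ≠ none) → m x = (p (f n)).n x := by
    intro n x hx h1
    have h2 : ∃ n, ∃ i, (p (f n)).n x i ≠ none := ⟨n, h1⟩
    have h3 : h2.choose = n := huniq _ _ x hx h2.choose_spec h1
    simp only [m]
    rw [if_neg hx, dif_pos h2, h3]
  have hm3 : ∀ x i, x ∉ C → m x i ≠ none → ∃ n, (∃ i, (p (f n)).n x i ≠ none) := by
    intro x i hx h1
    by_contra h2
    apply h1
    simp only [m]
    rw [if_neg hx, dif_neg h2]
  have hfn : {w : K × I | m w.1 w.2 ≠ none}.Finite := by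
    have h8 : ({w : K × I | q.n w.1 w.2 ≠ none} ∪
        ⋃ n : Fin N, {w : K × I | (p (f n)).n w.1 w.2 ≠ none}).Finite :=
      q.fn.union (finite_iUnion fun n => (p (f n)).fn)
    refine h8.subset fun w hw => ?_
    by_cases hx : w.1 ∈ C
    · left
      change m w.1 w.2 ≠ none at hw
      rw [hm1 _ hx] at hw
      exact hw
    · right
      obtain ⟨n, hn⟩ := hm3 w.1 w.2 hx hw
      refine mem_iUnion.2 ⟨n, ?_⟩
      change m w.1 w.2 ≠ none at hw
      rw [hm2 n _ hx hn] at hw
      exact hw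
  let q' : Cond K I := ⟨q.s, m, q.fs, hfn⟩
  have hq'q : q' ≤ q := by
    refine ⟨fun i => List.prefix_rfl, fun x i b h' => ?_⟩
    have h1 : x ∈ C := (hq x i (by rw [h']; simp)).1
    change m x i = some b
    rw [hm1 x h1, h']
  have hq'p : ∀ n, q' ≤ p (f n) := by
    intro n
    refine ⟨(hqp n).1, fun x i b h' => ?_⟩
    by_cases hx : x ∈ C
    · change m x i = some b
      rw [hm1 x hx]
      refine (hqp n).2 x i b ?_
      rw [Cond.res_n _ hx, h']
    · change m x i = some b
      rw [hm2 n x hx ⟨i, by rw [h']; simp⟩, h']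
  refine ⟨f, hf, fun n => hB' (hfB n), q', ?_, hq'p, v, hv, hvs⟩
  refine mem_of_local ?_ ?_
  · intro z i hz
    by_cases hx : z ∈ C
    · exact hC2 hx
    · obtain ⟨n, j, hn⟩ := hm3 z i hx hz
      exact (hp _ (hB' (hfB n)) z j hn).1
  · intro z i hz
    by_cases hx : z ∈ C
    · refine ⟨q, St_mono (subset_univ _) hq, fun j => ?_, Cond.res_mono hq'q _⟩
      exact (congrFun (hm1 z hx) j).symm
    · obtain ⟨n, hn⟩ := hm3 z i hx hz
      refine ⟨p (f n), St_mono (subset_univ _) (hp _ (hB' (hfB n))), fun j => ?_,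
        Cond.res_mono (hq'p n) _⟩
      exact (congrFun (hm2 n z hx hn) j).symm

end Pool.Agent.Unif
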