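import Pool.Agent.Work.MP_c629c8_al.Unif.Defs

/-!
# Affine systems over finite prime fields are Ramsey

Let `A` be a set of functions `I → ZMod p` which is an affine subspace. The family of the finite
sets `E` on which some member of `A` vanishes is Ramsey with a bound which depends only on `p`.
-/

open Finset

namespace Pool.Agent.Unif

/-! ### Thinning out -/

section Thin

variable {ι B V C : Type*}

/-- On `J` the values at `b` are constant, or those of `w` are pairwise different. -/
def Thin (w : ι → B → V) (L : ι → B → C) (b : B) (J : Finset ι) : Prop :=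
  (∀ j ∈ J, ∀ j' ∈ J, w j b = w j' b ∧ L j b = L j' b) ∨
    (∀ j ∈ J, ∀ j' ∈ J, w j b = w j' b → j = j')

theorem Thin.subset {w : ι → B → V} {L : ι → B → C} {b : B} {J J' : Finset ι} (h : Thin w L b J)
    (hJ : J' ⊆ J) : Thin w L b J' := by
  rcases h with h | h
  · exact Or.inl fun j hj j' hj' => h j (hJ hj) j' (hJ hj')
  · exact Or.inr fun j hj j' hj' => h j (hJ hj) j' (hJ hj')

theorem thin_one [Fintype C] [Nonempty C] (w : ι → B → V) (L : ι → B → C) (b : B) (N : ℕ) (S : Finset ι)
    (hS : N * (N * Fintype.card C) ≤ S.card) : ∃ J ⊆ S, N ≤ J.card ∧ Thin w L b J := by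
  classical
  rcases Nat.eq_zero_or_pos N with rfl | hN
  · exact ⟨∅, empty_subset _, by simp, Or.inl (by simp)⟩
  rcases S.eq_empty_or_nonempty with rfl | ⟨j₀, hj₀⟩
  · have hc : N * (N * Fintype.card C) = 0 := by simpa using hS
    have := Fintype.card_pos (α := C)
    have h2 : 0 < N * (N * Fintype.card C) := by positivity
    omega
  have : Nonempty ι := ⟨j₀⟩
  set T : Finset V := S.image (fun j => w j b) with hT
  rcases le_or_gt N T.card with h | h
  · have hex : ∀ v ∈ T, ∃ j ∈ S, w j b = v := fun v hv => by simpa [hT] using hv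
    choose! g hg using hex
    refine ⟨T.image g, ?_, ?_, Or.inr ?_⟩
    · intro j hj
      obtain ⟨v, hv, rfl⟩ := mem_image.1 hj
      exact (hg v hv).1
    · rw [card_image_of_injOn]
      · exact h
      · intro v hv v' hv' e
        rw [← (hg v hv).2, ← (hg v' hv').2, e]
    · intro j hj j' hj' e
      obtain ⟨v, hv, rfl⟩ := mem_image.1 hj
      obtain ⟨v', hv', rfl⟩ := mem_image.1 hj'
      rw [(hg v hv).2, (hg v' hv').2] at e
      rw [e]
  · have hmaps : ∀ j ∈ S, (w j b, L j b) ∈ T ×ˢ (univ : Finset C) := fun j hj => by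
      simp only [mem_product, mem_univ, and_true, hT]
      exact mem_image_of_mem _ hj
    obtain ⟨y, -, hy⟩ := exists_le_card_fiber_of_mul_le_card_of_maps_to (n := N) hmaps
      ⟨_, hmaps j₀ hj₀⟩ (by
        rw [card_product, card_univ]
        calc T.card * Fintype.card C * N ≤ N * Fintype.card C * N := by gcongr
          _ = N * (N * Fintype.card C) := by ring
          _ ≤ S.card := hS)
    refine ⟨_, filter_subset _ _, hy, Or.inl fun j hj j' hj' => ?_⟩
    have h1 := (mem_filter.1 hj).2
    have h2 := (mem_filter.1 hj').2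
    rw [← h2, Prod.mk.injEq] at h1
    exact h1

/-- The bound for thinning out `t` times. -/
def tb (c : ℕ) : ℕ → ℕ → ℕ
  | 0, N => N
  | t + 1, N => tb c t (N * (N * c))

theorem thin_all [Fintype C] [Nonempty C] (w : ι → B → V) (L : ι → B → C) (T : Finset B) :
    ∀ (N : ℕ) (S : Finset ι), tb (Fintype.card C) T.card N ≤ S.card →
      ∃ J ⊆ S, N ≤ J.card ∧ ∀ b ∈ T, Thin w L b J := by
  classical
  induction T using Finset.induction_on with
  | empty => exact fun N S h => ⟨S, Subset.rfl, h, by simp⟩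
  | insert b T hb ih =>
    intro N S h
    rw [card_insert_of_notMem hb] at h
    obtain ⟨J, hJ, hc, hJ'⟩ := ih _ S h
    obtain ⟨J₂, hJ₂, hc₂, ht⟩ := thin_one w L b N J hc
    refine ⟨J₂, hJ₂.trans hJ, hc₂, fun b' hb' => ?_⟩
    rcases mem_insert.1 hb' with rfl | hb'
    · exact ht
    · exact (hJ' b' hb').subset hJ₂

end Thin

/-! ### The greedy choice -/

section Greedy

variable {ι B V C : Type*} [AddCommGroup B] [AddCommGroup V] [AddCommGroup C]

/-- Every relation between the `w`-values is a relation between the `L`-values. -/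
def Cons (w : ι → B →+ V) (L : ι → B →+ C) (J : Finset ι) : Prop :=
  ∀ b : ι → B, ∑ j ∈ J, w j (b j) = 0 → ∑ j ∈ J, L j (b j) = 0

theorem sum_update_add {X : Type*} [AddCommGroup X] [DecidableEq ι] (u : ι → B →+ X) (b : ι → B)
    {J : Finset ι} {j₀ : ι} (hj₀ : j₀ ∈ J) (x : B) :
    ∑ k ∈ J, u k (Function.update b j₀ (x + b j₀) k) = u j₀ x + ∑ k ∈ J, u k (b k) := by
  rw [← add_sum_erase J _ hj₀, ← add_sum_erase J (fun k => u k (b k)) hj₀]
  rw [Function.update_self, map_add, add_assoc]
  congr 2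
  refine sum_congr rfl fun k hk => ?_
  rw [Function.update_of_ne (ne_of_mem_erase hk)]

theorem greedy [Fintype B] (w : ι → B →+ V) (L : ι → B →+ C)
    (hk : ∀ j b, w j b = 0 → L j b = 0) (S : Finset ι)
    (hS : ∀ b, Thin (fun j b => w j b) (fun j b => L j b) b S) :
    ∀ n, Fintype.card B ^ (n + 1) + n < S.card → ∃ J ⊆ S, J.card = n + 1 ∧ Cons w L J := by
  classical
  intro n
  induction n with
  | zero =>
    intro h
    obtain ⟨j, hj⟩ : S.Nonempty := card_pos.1 (by omega)
    refine ⟨{j}, by simpa using hj, by simp, fun b hb => ?_⟩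
    rw [sum_singleton] at hb ⊢
    exact hk j _ hb
  | succ n ih =>
    intro h
    have hB : 0 < Fintype.card B := Fintype.card_pos
    have hle : Fintype.card B ^ (n + 1) ≤ Fintype.card B ^ (n + 1 + 1) :=
      Nat.pow_le_pow_right hB (by omega)
    obtain ⟨J, hJS, hJc, hJ⟩ := ih (by omega)
    set Sp : Finset V := (univ : Finset (J → B)).image (fun b => ∑ j : J, w j (b j)) with hSp
    have hSpc : Sp.card ≤ Fintype.card B ^ (n + 1) := by
      refine card_image_le.trans ?_
      rw [card_univ, Fintype.card_fun, Fintype.card_coe, hJc]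
    have hmemSp : ∀ b : ι → B, ∑ j ∈ J, w j (b j) ∈ Sp := fun b => by
      rw [hSp, mem_image]
      exact ⟨fun j => b j, mem_univ _, by rw [← sum_coe_sort J (fun j => w j (b j))]⟩
    set Bad : Finset ι := (univ : Finset B).biUnion (fun b => S.filter (fun j => w j b ∈ Sp ∧
      ∀ j ∈ S, ∀ j' ∈ S, w j b = w j' b → j = j')) with hBad
    have hBadc : Bad.card ≤ Fintype.card B ^ (n + 1 + 1) := by
      rw [pow_succ', ← card_univ]
      refine card_biUnion_le_card_mul _ _ _ fun b _ => ?_
      rw [card_univ]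
      refine le_trans (card_le_card_of_injOn (fun j => w j b) (fun j hj => ?_) ?_) hSpc
      · exact (mem_filter.1 hj).2.1
      · intro j hj j' hj' e
        have h1 := mem_filter.1 hj
        exact h1.2.2 j h1.1 j' (mem_filter.1 hj').1 e
    obtain ⟨j, hj, hj2⟩ : ∃ j ∈ S, j ∉ Bad ∪ J := by
      by_contra hcon
      push Not at hcon
      have h1 := card_le_card (s := S) (t := Bad ∪ J) hcon
      have h2 := card_union_le Bad J
      omega
    rw [mem_union, not_or] at hj2
    refine ⟨insert j J, insert_subset hj hJS, by rw [card_insert_of_notMem hj2.2, hJc], ?_⟩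
    intro b hb
    rw [sum_insert hj2.2] at hb ⊢
    rcases hS (b j) with hc | hc
    · obtain ⟨j₀, hj₀⟩ : J.Nonempty := card_pos.1 (by omega)
      obtain ⟨e1, e2⟩ := hc j hj j₀ (hJS hj₀)
      have h3 := hJ (Function.update b j₀ (b j + b j₀))
      rw [sum_update_add w b hj₀, sum_update_add L b hj₀] at h3
      beta_reduce at e1 e2
      rw [← e1, ← e2] at h3
      exact h3 hb
    · exfalso
      apply hj2.1
      rw [hBad, mem_biUnion]
      refine ⟨b j, mem_univ _, mem_filter.2 ⟨hj, ?_, hc⟩⟩
      have h4 : w j (b j) = ∑ k ∈ J, w k ((-b) k) := by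
        rw [eq_neg_of_add_eq_zero_left hb, ← sum_neg_distrib]
        exact sum_congr rfl fun k _ => by simp
      rw [h4]
      exact hmemSp _

/-- The bound for affine systems: `b` is the number of elements of `B` and `c` that of `C`. -/
def rb (b c N : ℕ) : ℕ := tb c b (b ^ (N + 1) + N + 1)

theorem exists_cons [Fintype B] [Fintype C] (N : ℕ) (w : ι → B →+ V) (L : ι → B →+ C)
    (hk : ∀ j b, w j b = 0 → L j b = 0) (S : Finset ι)
    (hS : rb (Fintype.card B) (Fintype.card C) N ≤ S.card) :
    ∃ J ⊆ S, N ≤ J.card ∧ Cons w L J := by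
  obtain ⟨J, hJ, hc, ht⟩ := thin_all (fun j b => w j b) (fun j b => L j b) univ
    (Fintype.card B ^ (N + 1) + N + 1) S (by rwa [card_univ])
  obtain ⟨J₂, hJ₂, hc₂, h⟩ := greedy w L hk J (fun b => ht b (mem_univ b)) N (by omega)
  exact ⟨J₂, hJ₂.trans hJ, by omega, h⟩

end Greedy

/-! ### Affine systems over `ZMod p` -/

section Affine

variable {I : Type*} {p : ℕ}

/-- The set `A` of functions is closed under `x - y + z`. -/
def IsAff (A : Set (I → ZMod p)) : Prop :=
  ∀ x ∈ A, ∀ y ∈ A, ∀ z ∈ A, x - y + z ∈ A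

/-- `A` is closed in the topology of pointwise convergence. -/
def IsPtClosed (A : Set (I → ZMod p)) : Prop :=
  ∀ x : I → ZMod p, (∀ E : Finset I, ∃ g ∈ A, ∀ i ∈ E, g i = x i) → x ∈ A

/-- The finite sets on which some member of `A` vanishes. -/
def Zer (A : Set (I → ZMod p)) : Set (Finset I) := {E | ∃ g ∈ A, ∀ i ∈ E, g i = 0}

theorem mem_zer_iff [Fact p.Prime] {A : Set (I → ZMod p)} (hA : IsAff A) {g₀ : I → ZMod p}
    (hg₀ : g₀ ∈ A) (E : Finset I) :
    E ∈ Zer A ↔ ∀ b : I → ZMod p, (∀ g ∈ A, ∑ i ∈ E, b i * (g i - g₀ i) = 0) →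
      ∑ i ∈ E, b i * g₀ i = 0 := by
  classical
  constructor
  · rintro ⟨g, hg, h0⟩ b hb
    have := hb g hg
    rw [← neg_eq_zero, ← this, ← sum_neg_distrib]
    refine sum_congr rfl fun i hi => ?_
    rw [h0 i hi]
    ring
  · intro h
    let W : AddSubgroup (E → ZMod p) :=
      { carrier := {x | ∃ g ∈ A, ∀ i : E, x i = g i - g₀ i}
        zero_mem' := ⟨g₀, hg₀, fun i => by simp⟩
        add_mem' := by
          rintro x y ⟨g, hg, hx⟩ ⟨g', hg', hy⟩
          refine ⟨g - g₀ + g', hA _ hg _ hg₀ _ hg', fun i => ?_⟩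
          rw [Pi.add_apply, hx, hy]
          simp only [Pi.add_apply, Pi.sub_apply]
          ring
        neg_mem' := by
          rintro x ⟨g, hg, hx⟩
          refine ⟨g₀ - g + g₀, hA _ hg₀ _ hg _ hg₀, fun i => ?_⟩
          rw [Pi.neg_apply, hx]
          simp only [Pi.add_apply, Pi.sub_apply]
          ring }
    by_contra hE
    have hnot : (fun i : E => - g₀ i) ∉ AddSubgroup.toZModSubmodule p W := by
      rintro ⟨g, hg, hx⟩
      refine hE ⟨g, hg, fun i hi => ?_⟩
      have := hx ⟨i, hi⟩
      simp only at this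
      linear_combination - this
    obtain ⟨f, hf, hle⟩ := Submodule.exists_le_ker_of_notMem hnot
    have hfs : ∀ x : I → ZMod p, f (fun i : E => x i) =
        ∑ i ∈ E, (if h : i ∈ E then f (fun j => if (⟨i, h⟩ : E) = j then 1 else 0) else 0) * x i := by
      intro x
      rw [LinearMap.pi_apply_eq_sum_univ, ← sum_coe_sort E]
      refine sum_congr rfl fun i _ => ?_
      rw [dif_pos i.2, smul_eq_mul, mul_comm]
    refine hf ?_
    have h1 := hfs (fun i => - g₀ i)
    rw [h1]
    have h2 := h (fun i => if h : i ∈ E then f (fun j => if (⟨i, h⟩ : E) = j then 1 else 0) else 0) (fun g hg => by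
      rw [← hfs (fun i => g i - g₀ i)]
      exact LinearMap.mem_ker.1 (hle ⟨g, hg, fun i => rfl⟩))
    simp only [mul_neg, sum_neg_distrib, h2, neg_zero]

/-- The finite sets on which all relations between the vectors `v i` hold for the scalars `l i`. -/
def Rel {V : Type*} [AddCommGroup V] [Module (ZMod p) V] (v : I → V) (l : I → ZMod p) :
    Set (Finset I) :=
  {E | ∀ b : I → ZMod p, ∑ i ∈ E, b i • v i = 0 → ∑ i ∈ E, b i * l i = 0}

theorem Rel.mono {V : Type*} [AddCommGroup V] [Module (ZMod p) V] {v : I → V} {l : I → ZMod p}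
    {E E' : Finset I} (h : E' ⊆ E) (hE : E ∈ Rel v l) : E' ∈ Rel v l := by
  classical
  intro b hb
  have h1 := hE (fun i => if i ∈ E' then b i else 0)
  have e1 : ∑ i ∈ E, (if i ∈ E' then b i else 0) • v i = ∑ i ∈ E', b i • v i := by
    symm
    rw [← sum_subset h (fun i _ hi => by rw [if_neg hi, zero_smul])]
    exact sum_congr rfl fun i hi => by rw [if_pos hi]
  have e2 : ∑ i ∈ E, (if i ∈ E' then b i else 0) * l i = ∑ i ∈ E', b i * l i := by
    symm
    rw [← sum_subset h (fun i _ hi => by rw [if_neg hi, zero_mul])]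
    exact sum_congr rfl fun i hi => by rw [if_pos hi]
  rw [e1, e2] at h1
  exact h1 hb

/-- The family of a system of relations is closed under unions of a large part of a large
subfamily. -/
theorem rel_ramsey [NeZero p] {V : Type*} [AddCommGroup V] [Module (ZMod p) V] (v : I → V)
    (l : I → ZMod p) (k N : ℕ) {ι : Type*} (S : Finset ι) (hS : rb (p ^ (k + 1)) p N ≤ S.card)
    (E : ι → Finset I) (hE : ∀ j, (E j).card ≤ k ∧ E j ∈ Rel v l) :
    ∃ J ⊆ S, N ≤ J.card ∧ ∃ E' ∈ Rel v l, ∀ j ∈ J, E j ⊆ E' := by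
  classical
  have hφ : ∀ j, ∃ φ : I → Fin (k + 1), ∀ i ∈ E j, ∀ i' ∈ E j, φ i = φ i' → i = i' := by
    intro j
    have hle : (E j).card ≤ k + 1 := (hE j).1.trans (by omega)
    refine ⟨fun i => if h : i ∈ E j then Fin.castLE hle ((E j).equivFin ⟨i, h⟩) else 0, ?_⟩
    intro i hi i' hi' e
    simp only [hi, hi', dite_true] at e
    have := (E j).equivFin.injective (Fin.castLE_injective hle e)
    exact congrArg Subtype.val this
  choose φ hφ using hφ
  let w : ι → (Fin (k + 1) → ZMod p) →+ V := fun j =>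
    { toFun := fun b => ∑ i ∈ E j, b (φ j i) • v i
      map_zero' := by simp
      map_add' := fun b b' => by simp only [Pi.add_apply, add_smul, sum_add_distrib] }
  let L : ι → (Fin (k + 1) → ZMod p) →+ ZMod p := fun j =>
    { toFun := fun b => ∑ i ∈ E j, b (φ j i) * l i
      map_zero' := by simp
      map_add' := fun b b' => by simp only [Pi.add_apply, add_mul, sum_add_distrib] }
  have hk : ∀ j b, w j b = 0 → L j b = 0 := fun j b hb => (hE j).2 (fun i => b (φ j i)) hb
  have hcard : Fintype.card (Fin (k + 1) → ZMod p) = p ^ (k + 1) := by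
    rw [Fintype.card_fun, ZMod.card, Fintype.card_fin]
  obtain ⟨J, hJS, hJ, hc⟩ := exists_cons N w L hk S (by rw [hcard, ZMod.card]; exact hS)
  refine ⟨J, hJS, hJ, J.biUnion E, ?_, fun j hj => subset_biUnion_of_mem E hj⟩
  intro a ha
  -- distribute the coefficients over the members
  have hch : ∀ i, i ∈ J.biUnion E → ∃ j ∈ J, i ∈ E j := fun i hi => mem_biUnion.1 hi
  choose jj hjj using hch
  let c : ι → I → ZMod p := fun j i => if h : i ∈ J.biUnion E then (if jj i h = j then a i else 0) else 0
  let b : ι → Fin (k + 1) → ZMod p := fun j m => ∑ i ∈ E j, if φ j i = m then c j i else 0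
  have hb : ∀ j, ∀ i ∈ E j, b j (φ j i) = c j i := by
    intro j i hi
    simp only [b]
    rw [sum_eq_single_of_mem i hi (fun i' hi' hne => if_neg fun e => hne (hφ j _ hi' _ hi e)), if_pos rfl]
  have h0 : ∀ j ∈ J, ∀ i ∈ J.biUnion E, i ∉ E j → c j i = 0 := by
    intro j hj i hi hi'
    simp only [c, dif_pos hi]
    refine if_neg fun e => hi' ?_
    rw [← e]
    exact (hjj i hi).2
  have key1 : ∑ j ∈ J, ∑ i ∈ E j, b j (φ j i) • v i = ∑ i ∈ J.biUnion E, a i • v i := by
    have h1 : ∀ j ∈ J, ∑ i ∈ E j, b j (φ j i) • v i = ∑ i ∈ J.biUnion E, c j i • v i := by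
      intro j hj
      rw [sum_congr rfl fun i hi => by rw [hb j i hi]]
      exact sum_subset (subset_biUnion_of_mem E hj) fun i hi hi' => by
        rw [h0 j hj i hi hi', zero_smul]
    rw [sum_congr rfl h1, sum_comm]
    refine sum_congr rfl fun i hi => ?_
    rw [← sum_smul]
    congr 1
    simp only [c, dif_pos hi]
    rw [sum_ite_eq, if_pos (hjj i hi).1]
  have key2 : ∑ j ∈ J, ∑ i ∈ E j, b j (φ j i) * l i = ∑ i ∈ J.biUnion E, a i * l i := by
    have h1 : ∀ j ∈ J, ∑ i ∈ E j, b j (φ j i) * l i = ∑ i ∈ J.biUnion E, c j i * l i := by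
      intro j hj
      rw [sum_congr rfl fun i hi => by rw [hb j i hi]]
      exact sum_subset (subset_biUnion_of_mem E hj) fun i hi hi' => by
        rw [h0 j hj i hi hi', zero_mul]
    rw [sum_congr rfl h1, sum_comm]
    refine sum_congr rfl fun i hi => ?_
    rw [← sum_mul]
    congr 1
    simp only [c, dif_pos hi]
    rw [sum_ite_eq, if_pos (hjj i hi).1]
  exact key2.symm.trans (hc b (key1.trans ha))

theorem zer_eq_rel [Fact p.Prime] {A : Set (I → ZMod p)} (hA : IsAff A) {g₀ : I → ZMod p}
    (hg₀ : g₀ ∈ A) : Zer A = Rel (fun i (g : A) => g.1 i - g₀ i) g₀ := by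
  ext E
  rw [mem_zer_iff hA hg₀]
  refine forall_congr' fun b => imp_congr_left ?_
  constructor
  · intro h
    funext g
    rw [Finset.sum_apply]
    exact h g.1 g.2
  · intro h g hg
    have := congrFun h ⟨g, hg⟩
    rw [Finset.sum_apply] at this
    exact this

/-- The family of an affine set is closed under unions of a large part of a large subfamily. -/
theorem zer_ramsey [Fact p.Prime] {A : Set (I → ZMod p)} (hA : IsAff A) (hne : A.Nonempty)
    (k N : ℕ) {ι : Type*} (S : Finset ι) (hS : rb (p ^ (k + 1)) p N ≤ S.card) (E : ι → Finset I)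
    (hE : ∀ j, (E j).card ≤ k ∧ E j ∈ Zer A) :
    ∃ J ⊆ S, N ≤ J.card ∧ ∃ E' ∈ Zer A, ∀ j ∈ J, E j ⊆ E' := by
  obtain ⟨g₀, hg₀⟩ := hne
  rw [zer_eq_rel hA hg₀] at hE ⊢
  exact rel_ramsey _ _ k N S hS E hE

/-- Compactness: if the closed set `A` has for every finite part of `S` a member which vanishes
there, then it has a member which vanishes on `S`. -/
theorem exists_zero_of_finite [NeZero p] {A : Set (I → ZMod p)} (hc : IsPtClosed A) (S : Set I)
    (h : ∀ E : Finset I, (∀ i ∈ E, i ∈ S) → ∃ g ∈ A, ∀ i ∈ E, g i = 0) :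
    ∃ g ∈ A, ∀ i ∈ S, g i = 0 := by
  classical
  have hcl : IsClosed A := by
    rw [← isOpen_compl_iff, isOpen_pi_iff]
    intro x hx
    by_contra hcon
    push Not at hcon
    refine hx (hc x fun E => ?_)
    obtain ⟨g, hg, hg'⟩ := Set.not_subset.1 (hcon E (fun i => {x i})
      (fun i _ => ⟨isOpen_discrete _, rfl⟩))
    refine ⟨g, not_not.1 hg', fun i hi => ?_⟩
    exact hg i (mem_coe.2 hi)
  have := IsCompact.inter_iInter_nonempty (s := A) hcl.isCompact
    (fun i : S => {g : I → ZMod p | g i = 0}) (fun i => isClosed_eq (continuous_apply i.1)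
      continuous_const) (fun u => by
        obtain ⟨g, hg, h0⟩ := h (u.image Subtype.val) (fun i hi => by
          obtain ⟨j, -, rfl⟩ := mem_image.1 hi
          exact j.2)
        refine ⟨g, hg, ?_⟩
        simp only [Set.mem_iInter, Set.mem_ofPred_eq]
        exact fun i hi => h0 i (mem_image_of_mem _ hi))
  obtain ⟨g, hg, h0⟩ := this
  simp only [Set.mem_iInter, Set.mem_ofPred_eq] at h0
  exact ⟨g, hg, fun i hi => h0 ⟨i, hi⟩⟩

end Affine

/-! ### Systems indexed by the nodes -/

/-- The bound for systems over the fields `ZMod (p r)`. -/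
def rbd (p : List ℕ → ℕ) (r : List ℕ) (k N : ℕ) : ℕ := rb (p r ^ (k + 1)) (p r) N

/-- Affine systems which have solutions vanishing at one given place are Ramsey. Only the indices
with `On r i` matter at the node `r`. -/
theorem isRamsey_affine {I : Type} (p : List ℕ → ℕ) (hp : ∀ r, (p r).Prime)
    (On : List ℕ → I → Prop) (A : ∀ r, Set (I → ZMod (p r))) (hne : ∀ r, (A r).Nonempty)
    (hA : ∀ r, IsAff (A r)) (hz : ∀ r i, On r i → ∃ g ∈ A r, g i = 0) :
    IsRamsey (rbd p) (fun r => {E | ∃ g ∈ A r, ∀ i ∈ E, On r i → g i = 0}) where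
  mono := fun r E E' h ⟨g, hg, h0⟩ => ⟨g, hg, fun i hi => h0 i (h hi)⟩
  small := by
    intro r E hE
    have hle := Finset.card_le_one.1 hE
    obtain ⟨g₀, hg₀⟩ := hne r
    by_cases hex : ∃ i ∈ E, On r i
    · obtain ⟨i, hi, hi'⟩ := hex
      obtain ⟨g, hg, h0⟩ := hz r i hi'
      refine ⟨g, hg, fun j hj _ => ?_⟩
      rwa [hle j hj i hi]
    · exact ⟨g₀, hg₀, fun i hi hi' => absurd ⟨i, hi, hi'⟩ hex⟩
  ramsey := by
    classical
    intro r k N E hE
    have := Fact.mk (hp r)
    obtain ⟨J, -, hJ, E', hE', hsub⟩ := zer_ramsey (hA r) (hne r) k N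
      (univ : Finset (Fin (rbd p r k N))) (by rw [card_univ, Fintype.card_fin]; rfl)
      (fun j => (E j).filter (On r)) (fun j => by
        obtain ⟨g, hg, h0⟩ := (hE j).2
        refine ⟨(card_filter_le _ _).trans (hE j).1, g, hg, fun i hi => ?_⟩
        exact h0 i (mem_filter.1 hi).1 (mem_filter.1 hi).2)
    obtain ⟨g, hg, h0⟩ := hE'
    refine ⟨J, hJ, J.biUnion E, ⟨g, hg, fun i hi hi' => ?_⟩, fun j hj => subset_biUnion_of_mem E hj⟩
    obtain ⟨j, hj, hij⟩ := mem_biUnion.1 hi
    exact h0 i (hsub j hj (mem_filter.2 ⟨hij, hi'⟩))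

/-- A functional on a space of finitely supported vectors which vanishes at the vectors with one
entry gives a Ramsey system. -/
theorem isRamsey_sub {I : Type} (p : List ℕ → ℕ) (hp : ∀ r, (p r).Prime)
    (R : ∀ s, Submodule (ZMod (p s)) (I →₀ ZMod (p s))) (L : ∀ s, R s →ₗ[ZMod (p s)] ZMod (p s))
    (h1 : ∀ s (v : R s) i, (∀ j, (v : I →₀ ZMod (p s)) j ≠ 0 → j = i) → L s v = 0) :
    IsRamsey (rbd p) (fun s => {E | ∀ v : R s,
      (∀ i, (v : I →₀ ZMod (p s)) i ≠ 0 → i ∈ E) → L s v = 0}) where
  mono := fun r E E' h hE v hv => hE v fun i hi => h (hv i hi)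
  small := by
    intro s E hE v hv
    rcases E.eq_empty_or_nonempty with rfl | ⟨i, hi⟩
    · have : v = 0 := by
        ext i
        by_contra hne
        exact absurd (hv i hne) (by simp)
      rw [this, map_zero]
    · exact h1 s v i fun j hj => Finset.card_le_one.1 hE j (hv j hj) i hi
  ramsey := by
    classical
    intro s k N E hE
    have := Fact.mk (hp s)
    obtain ⟨L', hL'⟩ := LinearMap.exists_extend (L s)
    have hL : ∀ v : R s, L s v = L' v := fun v => by rw [← hL']; rfl
    have heq : {E : Finset I | ∀ v : R s, (∀ i, (v : I →₀ ZMod (p s)) i ≠ 0 → i ∈ E) → L s v = 0} =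
        Rel (fun i => (R s).mkQ (Finsupp.single i 1)) (fun i => L' (Finsupp.single i 1)) := by
      ext E
      have hsum : ∀ b : I → ZMod (p s), ∑ i ∈ E, b i • (R s).mkQ (Finsupp.single i 1) =
          (R s).mkQ (∑ i ∈ E, Finsupp.single i (b i)) := by
        intro b
        rw [map_sum]
        refine sum_congr rfl fun i _ => ?_
        rw [← map_smul, Finsupp.smul_single, smul_eq_mul, mul_one]
      have hsumL : ∀ b : I → ZMod (p s), ∑ i ∈ E, b i * L' (Finsupp.single i 1) =
          L' (∑ i ∈ E, Finsupp.single i (b i)) := by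
        intro b
        rw [map_sum]
        refine sum_congr rfl fun i _ => ?_
        rw [← smul_eq_mul, ← map_smul, Finsupp.smul_single, smul_eq_mul, mul_one]
      constructor
      · intro h b hb
        rw [hsum, Submodule.mkQ_apply, Submodule.Quotient.mk_eq_zero] at hb
        rw [hsumL, ← hL ⟨_, hb⟩]
        refine h _ fun i hi => ?_
        by_contra hiE
        refine hi ?_
        show (∑ j ∈ E, Finsupp.single j (b j)) i = 0
        rw [Finsupp.finsetSum_apply]
        refine sum_eq_zero fun j hj => Finsupp.single_eq_of_ne ?_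
        rintro rfl
        exact hiE hj
      · intro h v hv
        have hvs : (∑ i ∈ E, Finsupp.single i ((v : I →₀ ZMod (p s)) i)) = v := by
          ext j
          rw [Finsupp.finsetSum_apply]
          by_cases hj : j ∈ E
          · rw [sum_eq_single_of_mem j hj (fun i _ hne => Finsupp.single_eq_of_ne hne.symm),
              Finsupp.single_eq_same]
          · rw [sum_eq_zero fun i hi => Finsupp.single_eq_of_ne (by rintro rfl; exact hj hi)]
            by_contra hne
            exact hj (hv j fun e => hne e.symm)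
        have := h (fun i => (v : I →₀ ZMod (p s)) i) (by
          rw [hsum, hvs, Submodule.mkQ_apply, Submodule.Quotient.mk_eq_zero]
          exact v.2)
        rw [hsumL, hvs] at this
        rw [hL, this]
    rw [heq] at hE ⊢
    obtain ⟨J, -, hJ, h⟩ := rel_ramsey _ _ k N
      (univ : Finset (Fin (rbd p s k N))) (by rw [card_univ, Fintype.card_fin]; rfl) E hE
    exact ⟨J, hJ, h⟩

end Pool.Agent.Unif
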